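import Mathlib

/-!
Computability toolbox: bounded search, limit computable functions, the universal r.e. predicate.
-/

set_option autoImplicit false

namespace Pool.Agent.Helper17.DS

open Nat.Partrec (Code)

attribute [fun_prop] Computable

section comp
variable {α β γ δ : Type*} [Primcodable α] [Primcodable β] [Primcodable γ] [Primcodable δ]

@[fun_prop] theorem cid : Computable (fun x : α => x) := Computable.id
@[fun_prop] theorem cconst (b : β) : Computable (fun _ : α => b) := Computable.const b
@[fun_prop] theorem ccomp {f : β → γ} {g : α → β} (hf : Computable f) (hg : Computable g) :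
    Computable (fun a => f (g a)) := hf.comp hg
@[fun_prop] theorem cpair {f : α → β} {g : α → γ} (hf : Computable f) (hg : Computable g) :
    Computable (fun a => (f a, g a)) := hf.pair hg
@[fun_prop] theorem cfst {f : α → β × γ} (hf : Computable f) :
    Computable (fun a => (f a).1) := Computable.fst.comp hf
@[fun_prop] theorem csnd {f : α → β × γ} (hf : Computable f) :
    Computable (fun a => (f a).2) := Computable.snd.comp hf
@[fun_prop] theorem cadd {f g : α → ℕ} (hf : Computable f) (hg : Computable g) :
    Computable (fun a => f a + g a) := (Primrec.nat_add.to_comp).comp hf hg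
@[fun_prop] theorem csub {f g : α → ℕ} (hf : Computable f) (hg : Computable g) :
    Computable (fun a => f a - g a) := (Primrec.nat_sub.to_comp).comp hf hg
@[fun_prop] theorem cmul {f g : α → ℕ} (hf : Computable f) (hg : Computable g) :
    Computable (fun a => f a * g a) := (Primrec.nat_mul.to_comp).comp hf hg
@[fun_prop] theorem clen {f : α → List β} (hf : Computable f) :
    Computable (fun a => (f a).length) := Computable.list_length.comp hf
@[fun_prop] theorem capp {f g : α → List β} (hf : Computable f) (hg : Computable g) :
    Computable (fun a => f a ++ g a) := Computable.list_append.comp hf hg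
@[fun_prop] theorem ccons {f : α → β} {g : α → List β} (hf : Computable f) (hg : Computable g) :
    Computable (fun a => f a :: g a) := Computable.list_cons.comp hf hg
@[fun_prop] theorem ctake {f : α → ℕ} {g : α → List β} (hf : Computable f) (hg : Computable g) :
    Computable (fun a => (g a).take (f a)) := (Primrec.list_take.to_comp).comp hf hg
@[fun_prop] theorem cget {f : α → ℕ} {g : α → List β} (hf : Computable f) (hg : Computable g) :
    Computable (fun a => (g a)[f a]?) := (Computable.list_getElem?).comp hg hf
@[fun_prop] theorem csome {f : α → β} (hf : Computable f) :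
    Computable (fun a => some (f a)) := (Computable.option_some).comp hf
@[fun_prop] theorem cgetD {f : α → Option β} {g : α → β} (hf : Computable f) (hg : Computable g) :
    Computable (fun a => (f a).getD (g a)) := Computable.option_getD hf hg
@[fun_prop] theorem cisSome {f : α → Option β} (hf : Computable f) :
    Computable (fun a => (f a).isSome) := (Primrec.option_isSome.to_comp).comp hf
@[fun_prop] theorem cbind {f : α → Option β} {g : α → β → Option γ} (hf : Computable f)
    (hg : Computable (fun p : α × β => g p.1 p.2)) :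
    Computable (fun a => (f a).bind (g a)) := Computable.option_bind hf hg
@[fun_prop] theorem cmap {f : α → Option β} {g : α → β → γ} (hf : Computable f)
    (hg : Computable (fun p : α × β => g p.1 p.2)) :
    Computable (fun a => (f a).map (g a)) := Computable.option_map hf hg
@[fun_prop] theorem corElse {f g : α → Option β} (hf : Computable f)
    (hg : Computable g) :
    Computable (fun a => (f a <|> g a)) := (Primrec.option_orElse.to_comp).comp hf hg
@[fun_prop] theorem ccond {c : α → Bool} {f g : α → β} (hc : Computable c) (hf : Computable f)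
    (hg : Computable g) :
    Computable (fun a => bif c a then f a else g a) := Computable.cond hc hf hg
@[fun_prop] theorem cand {f g : α → Bool} (hf : Computable f) (hg : Computable g) :
    Computable (fun a => f a && g a) := (Primrec.and.to_comp).comp hf hg
@[fun_prop] theorem cor {f g : α → Bool} (hf : Computable f) (hg : Computable g) :
    Computable (fun a => f a || g a) := (Primrec.or.to_comp).comp hf hg
@[fun_prop] theorem cnot {f : α → Bool} (hf : Computable f) :
    Computable (fun a => !(f a)) := (Primrec.not.to_comp).comp hf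
@[fun_prop] theorem cencode {f : α → β} (hf : Computable f) :
    Computable (fun a => Encodable.encode (f a)) := Computable.encode.comp hf
@[fun_prop] theorem cofNat {δ : Type*} [Denumerable δ] {f : α → ℕ} (hf : Computable f) :
    Computable (fun a => Denumerable.ofNat δ (f a)) := (Computable.ofNat δ).comp hf
@[fun_prop] theorem cdecode {f : α → ℕ} (hf : Computable f) :
    Computable (fun a => (Encodable.decode (f a) : Option β)) := Computable.decode.comp hf
@[fun_prop] theorem cunpair {f : α → ℕ} (hf : Computable f) :
    Computable (fun a => Nat.unpair (f a)) := Computable.unpair.comp hf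
@[fun_prop] theorem cnpair {f g : α → ℕ} (hf : Computable f) (hg : Computable g) :
    Computable (fun a => Nat.pair (f a) (g a)) := (Primrec₂.natPair.to_comp).comp hf hg

@[fun_prop] theorem cevaln {f g : α → ℕ} {c : α → Code} (hf : Computable f) (hc : Computable c)
    (hg : Computable g) :
    Computable (fun a => Code.evaln (f a) (c a) (g a)) :=
  (Code.primrec_evaln.to_comp).comp ((hf.pair hc).pair hg)

theorem cnatrec {s : α → ℕ} {f : α → β} {h : α → ℕ → β → β} (hs : Computable s)
    (hf : Computable f) (hh : Computable (fun p : α × ℕ × β => h p.1 p.2.1 p.2.2)) :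
    Computable (fun a => (Nat.rec (f a) (fun n ih => h a n ih) (s a) : β)) :=
  Computable.nat_rec (f := s) (g := f) (h := fun a p => h a p.1 p.2) hs hf hh

end comp

/-! Boolean tests on natural numbers -/

/-- equality test -/
def eqb (a b : ℕ) : Bool := decide (a = b)
/-- order test -/
def leb (a b : ℕ) : Bool := decide (a ≤ b)
/-- bit at a position, `false` beyond the length -/
def bitAt (r : List Bool) (c : ℕ) : Bool := (r[c]?).getD false

@[simp] theorem eqb_iff {a b : ℕ} : eqb a b = true ↔ a = b := by simp [eqb]
@[simp] theorem leb_iff {a b : ℕ} : leb a b = true ↔ a ≤ b := by simp [leb]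
@[simp] theorem eqb_false_iff {a b : ℕ} : eqb a b = false ↔ a ≠ b := by simp [eqb]
@[simp] theorem leb_false_iff {a b : ℕ} : leb a b = false ↔ b < a := by simp [leb]

/-- bounded search for the first `n < s` with `Q n ≠ none` -/
def bsearch {β : Type*} (Q : ℕ → Option β) (s : ℕ) : Option β :=
  Nat.rec none (fun n ih => ih <|> Q n) s

section comp2
variable {α β γ δ : Type*} [Primcodable α] [Primcodable β] [Primcodable γ] [Primcodable δ]

@[fun_prop] theorem ceqb {f g : α → ℕ} (hf : Computable f) (hg : Computable g) :
    Computable (fun a => eqb (f a) (g a)) := (Primrec.eq.decide.to_comp).comp hf hg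
@[fun_prop] theorem cleb {f g : α → ℕ} (hf : Computable f) (hg : Computable g) :
    Computable (fun a => leb (f a) (g a)) := (Primrec.nat_le.decide.to_comp).comp hf hg
@[fun_prop] theorem cbitAt {f : α → List Bool} {g : α → ℕ} (hf : Computable f)
    (hg : Computable g) : Computable (fun a => bitAt (f a) (g a)) := by
  unfold bitAt
  exact Computable.option_getD ((Computable.list_getElem?).comp hf hg) (Computable.const false)

@[fun_prop] theorem cbsearch {Q : α → ℕ → Option β} {s : α → ℕ}
    (hQ : Computable (fun p : α × ℕ => Q p.1 p.2)) (hs : Computable s) :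
    Computable (fun a => bsearch (Q a) (s a)) := by
  unfold bsearch
  exact cnatrec (f := fun _ => (none : Option β)) (h := fun a n ih => (ih <|> Q a n)) hs
    (Computable.const none) (by
      have h1 : Computable (fun p : α × ℕ × Option β => p.2.2) := by fun_prop
      have h2 : Computable (fun p : α × ℕ × Option β => Q p.1 p.2.1) :=
        hQ.comp (Computable.fst.pair (Computable.fst.comp Computable.snd))
      exact corElse h1 h2)

end comp2

section bs
variable {β : Type*}

@[simp] theorem bsearch_zero (Q : ℕ → Option β) : bsearch Q 0 = none := rfl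
theorem bsearch_succ (Q : ℕ → Option β) (s : ℕ) :
    bsearch Q (s + 1) = (bsearch Q s <|> Q s) := rfl

theorem bsearch_eq_none {Q : ℕ → Option β} {s : ℕ} :
    bsearch Q s = none ↔ ∀ n < s, Q n = none := by
  induction s with
  | zero => simp
  | succ s ih =>
    rw [bsearch_succ]
    constructor
    · intro h n hn
      cases h1 : bsearch Q s with
      | none =>
        rw [h1] at h
        rcases Nat.lt_succ_iff_lt_or_eq.1 hn with h2 | h2
        · exact (ih.1 h1) n h2
        · subst h2; simpa using h
      | some v => rw [h1] at h; simp at h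
    · intro h
      rw [ih.2 (fun n hn => h n (Nat.lt_succ_of_lt hn)), h s (Nat.lt_succ_self s)]
      rfl

theorem bsearch_eq_some {Q : ℕ → Option β} {s : ℕ} {v : β} :
    bsearch Q s = some v ↔ ∃ n < s, Q n = some v ∧ ∀ m < n, Q m = none := by
  induction s with
  | zero => simp
  | succ s ih =>
    rw [bsearch_succ]
    constructor
    · intro h
      cases h1 : bsearch Q s with
      | none =>
        rw [h1] at h
        refine ⟨s, Nat.lt_succ_self s, by simpa using h, fun m hm => (bsearch_eq_none.1 h1) m hm⟩
      | some w =>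
        rw [h1] at h
        have hw : w = v := by simpa using h
        subst hw
        obtain ⟨n, hn, h2, h3⟩ := ih.1 h1
        exact ⟨n, Nat.lt_succ_of_lt hn, h2, h3⟩
    · rintro ⟨n, hn, h2, h3⟩
      rcases Nat.lt_succ_iff_lt_or_eq.1 hn with h4 | h4
      · rw [ih.2 ⟨n, h4, h2, h3⟩]; rfl
      · subst h4
        rw [bsearch_eq_none.2 (fun m hm => h3 m hm), h2]; rfl

/-- unbounded search -/
noncomputable def first (Q : ℕ → Option β) : Option β := by
  classical
  exact if h : ∃ n, (Q n).isSome = true then Q (Nat.find h) else none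

theorem first_eq_none {Q : ℕ → Option β} : first Q = none ↔ ∀ n, Q n = none := by
  classical
  unfold first
  constructor
  · intro h n
    split_ifs at h with h1
    · have := Nat.find_spec h1
      rw [h] at this
      simp at this
    · push Not at h1
      simpa using h1 n
  · intro h
    rw [dif_neg]
    push Not
    intro n
    simp [h n]

theorem first_eq_some {Q : ℕ → Option β} {v : β} :
    first Q = some v ↔ ∃ n, Q n = some v ∧ ∀ m < n, Q m = none := by
  classical
  unfold first
  constructor
  · intro h
    split_ifs at h with h1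
    refine ⟨Nat.find h1, h, fun m hm => ?_⟩
    have := Nat.find_min h1 hm
    simpa using this
  · rintro ⟨n, h1, h2⟩
    have h3 : ∃ n, (Q n).isSome = true := ⟨n, by simp [h1]⟩
    rw [dif_pos h3]
    have : Nat.find h3 = n := by
      rw [Nat.find_eq_iff]
      refine ⟨by simp [h1], fun m hm => by simp [h2 m hm]⟩
    rw [this, h1]

theorem bsearch_first (Q : ℕ → Option β) : ∃ s0, ∀ s, s0 ≤ s → bsearch Q s = first Q := by
  cases h : first Q with
  | none =>
    refine ⟨0, fun s _ => ?_⟩
    rw [bsearch_eq_none]
    intro n _
    exact first_eq_none.1 h n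
  | some v =>
    obtain ⟨n, h1, h2⟩ := first_eq_some.1 h
    refine ⟨n + 1, fun s hs => ?_⟩
    rw [bsearch_eq_some]
    exact ⟨n, hs, h1, h2⟩

end bs

/-! Limit computable functions -/

/-- `f` is the pointwise limit of a computable sequence of functions -/
@[fun_prop]
def LimComp {α β : Type*} [Primcodable α] [Primcodable β] (f : α → β) : Prop :=
  ∃ g : α → ℕ → β, Computable₂ g ∧ ∀ a, ∃ s0, ∀ s, s0 ≤ s → g a s = f a

section lim
variable {α β γ δ : Type*} [Primcodable α] [Primcodable β] [Primcodable γ] [Primcodable δ]

theorem LimComp.of_comp {f : α → β} (hf : Computable f) : LimComp f :=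
  ⟨fun a _ => f a, hf.comp Computable.fst, fun _ => ⟨0, fun _ _ => rfl⟩⟩

@[fun_prop] theorem lid : LimComp (fun x : α => x) := LimComp.of_comp Computable.id
@[fun_prop] theorem lconst (b : β) : LimComp (fun _ : α => b) :=
  LimComp.of_comp (Computable.const b)

@[fun_prop] theorem lcomp {f : β → γ} {g : α → β} (hf : LimComp f) (hg : LimComp g) :
    LimComp (fun a => f (g a)) := by
  obtain ⟨F, hF, hF2⟩ := hf
  obtain ⟨G, hG, hG2⟩ := hg
  refine ⟨fun a s => F (G a s) s, hF.comp hG Computable.snd, fun a => ?_⟩
  obtain ⟨s1, h1⟩ := hG2 a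
  obtain ⟨s2, h2⟩ := hF2 (g a)
  refine ⟨max s1 s2, fun s hs => ?_⟩
  show F (G a s) s = f (g a)
  rw [h1 s (le_trans (le_max_left _ _) hs), h2 s (le_trans (le_max_right _ _) hs)]

@[fun_prop] theorem lpair {f : α → β} {g : α → γ} (hf : LimComp f) (hg : LimComp g) :
    LimComp (fun a => (f a, g a)) := by
  obtain ⟨F, hF, hF2⟩ := hf
  obtain ⟨G, hG, hG2⟩ := hg
  refine ⟨fun a s => (F a s, G a s), Computable.pair hF hG, fun a => ?_⟩
  obtain ⟨s1, h1⟩ := hF2 a
  obtain ⟨s2, h2⟩ := hG2 a
  refine ⟨max s1 s2, fun s hs => ?_⟩
  show (F a s, G a s) = (f a, g a)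
  rw [h1 s (le_trans (le_max_left _ _) hs), h2 s (le_trans (le_max_right _ _) hs)]

theorem LimComp.comp1 {f : β → γ} {g : α → β} (hf : Computable f) (hg : LimComp g) :
    LimComp (fun a => f (g a)) := lcomp (LimComp.of_comp hf) hg

theorem LimComp.comp2 {f : β → γ → δ} {g : α → β} {h : α → γ}
    (hf : Computable (fun p : β × γ => f p.1 p.2))
    (hg : LimComp g) (hh : LimComp h) :
    LimComp (fun a => f (g a) (h a)) := lcomp (LimComp.of_comp hf) (lpair hg hh)

@[fun_prop] theorem lfst {f : α → β × γ} (hf : LimComp f) :
    LimComp (fun a => (f a).1) := LimComp.comp1 Computable.fst hf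
@[fun_prop] theorem lsnd {f : α → β × γ} (hf : LimComp f) :
    LimComp (fun a => (f a).2) := LimComp.comp1 Computable.snd hf
@[fun_prop] theorem ladd {f g : α → ℕ} (hf : LimComp f) (hg : LimComp g) :
    LimComp (fun a => f a + g a) := LimComp.comp2 (by fun_prop) hf hg
@[fun_prop] theorem lsub {f g : α → ℕ} (hf : LimComp f) (hg : LimComp g) :
    LimComp (fun a => f a - g a) := LimComp.comp2 (by fun_prop) hf hg
@[fun_prop] theorem llen {f : α → List β} (hf : LimComp f) :
    LimComp (fun a => (f a).length) := LimComp.comp1 (by fun_prop) hf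
@[fun_prop] theorem lapp {f g : α → List β} (hf : LimComp f) (hg : LimComp g) :
    LimComp (fun a => f a ++ g a) := LimComp.comp2 (by fun_prop) hf hg
@[fun_prop] theorem lcons {f : α → β} {g : α → List β} (hf : LimComp f) (hg : LimComp g) :
    LimComp (fun a => f a :: g a) := LimComp.comp2 (by fun_prop) hf hg
@[fun_prop] theorem lget {f : α → ℕ} {g : α → List β} (hf : LimComp f) (hg : LimComp g) :
    LimComp (fun a => (g a)[f a]?) := LimComp.comp2 (by fun_prop) hg hf
@[fun_prop] theorem lsome {f : α → β} (hf : LimComp f) :
    LimComp (fun a => some (f a)) := LimComp.comp1 (by fun_prop) hf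
@[fun_prop] theorem lgetD {f : α → Option β} {g : α → β} (hf : LimComp f) (hg : LimComp g) :
    LimComp (fun a => (f a).getD (g a)) := LimComp.comp2 (by fun_prop) hf hg
@[fun_prop] theorem lisSome {f : α → Option β} (hf : LimComp f) :
    LimComp (fun a => (f a).isSome) := LimComp.comp1 (by fun_prop) hf
@[fun_prop] theorem lorElse {f g : α → Option β} (hf : LimComp f) (hg : LimComp g) :
    LimComp (fun a => (f a <|> g a)) :=
  LimComp.comp2 (f := fun x y : Option β => (x <|> y))
    (corElse Computable.fst Computable.snd) hf hg
@[fun_prop] theorem lcond {c : α → Bool} {f g : α → β} (hc : LimComp c) (hf : LimComp f)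
    (hg : LimComp g) :
    LimComp (fun a => bif c a then f a else g a) :=
  LimComp.comp2 (f := fun (b : Bool) (p : β × β) => bif b then p.1 else p.2)
    (by fun_prop) hc (lpair hf hg)
@[fun_prop] theorem land {f g : α → Bool} (hf : LimComp f) (hg : LimComp g) :
    LimComp (fun a => f a && g a) := LimComp.comp2 (by fun_prop) hf hg
@[fun_prop] theorem lor {f g : α → Bool} (hf : LimComp f) (hg : LimComp g) :
    LimComp (fun a => f a || g a) := LimComp.comp2 (by fun_prop) hf hg
@[fun_prop] theorem lnot {f : α → Bool} (hf : LimComp f) :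
    LimComp (fun a => !(f a)) := LimComp.comp1 (by fun_prop) hf
@[fun_prop] theorem lunpair {f : α → ℕ} (hf : LimComp f) :
    LimComp (fun a => Nat.unpair (f a)) := LimComp.comp1 (by fun_prop) hf
@[fun_prop] theorem lnpair {f g : α → ℕ} (hf : LimComp f) (hg : LimComp g) :
    LimComp (fun a => Nat.pair (f a) (g a)) := LimComp.comp2 (by fun_prop) hf hg
@[fun_prop] theorem leqb {f g : α → ℕ} (hf : LimComp f) (hg : LimComp g) :
    LimComp (fun a => eqb (f a) (g a)) := LimComp.comp2 (by fun_prop) hf hg
@[fun_prop] theorem lleb {f g : α → ℕ} (hf : LimComp f) (hg : LimComp g) :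
    LimComp (fun a => leb (f a) (g a)) := LimComp.comp2 (by fun_prop) hf hg
@[fun_prop] theorem lbitAt {f : α → List Bool} {g : α → ℕ} (hf : LimComp f) (hg : LimComp g) :
    LimComp (fun a => bitAt (f a) (g a)) := LimComp.comp2 (by fun_prop) hf hg

theorem lcase {o : α → Option β} {f : α → γ} {g : α → β → γ} (ho : LimComp o)
    (hf : LimComp f) (hg : LimComp (fun p : α × β => g p.1 p.2)) :
    LimComp (fun a => ((o a).elim (f a) (g a) : γ)) := by
  obtain ⟨O, hO, hO2⟩ := ho
  obtain ⟨F, hF, hF2⟩ := hf
  obtain ⟨G, hG, hG2⟩ := hg
  refine ⟨fun a s => (O a s).elim (F a s) (fun b => G (a, b) s), ?_, fun a => ?_⟩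
  · have : Computable (fun p : α × ℕ => (O p.1 p.2).elim (F p.1 p.2) (fun b => G (p.1, b) p.2)) := by
      refine (Computable.option_casesOn (o := fun p : α × ℕ => O p.1 p.2)
        (f := fun p => F p.1 p.2) (g := fun p b => G (p.1, b) p.2) hO hF ?_).of_eq ?_
      · exact (hG.comp ((Computable.fst.comp Computable.fst).pair Computable.snd)
          (Computable.snd.comp Computable.fst) :)
      · intro p
        cases O p.1 p.2 <;> rfl
    exact this
  · obtain ⟨s1, h1⟩ := hO2 a
    obtain ⟨s2, h2⟩ := hF2 a
    cases h : o a with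
    | none =>
      refine ⟨max s1 s2, fun s hs => ?_⟩
      show (O a s).elim (F a s) (fun b => G (a, b) s) = (o a).elim (f a) (g a)
      rw [h1 s (le_trans (le_max_left _ _) hs), h2 s (le_trans (le_max_right _ _) hs), h]
      rfl
    | some b =>
      obtain ⟨s3, h3⟩ := hG2 (a, b)
      refine ⟨max s1 s3, fun s hs => ?_⟩
      show (O a s).elim (F a s) (fun b => G (a, b) s) = (o a).elim (f a) (g a)
      rw [h1 s (le_trans (le_max_left _ _) hs), h]
      exact h3 s (le_trans (le_max_right _ _) hs)

/-- limit computable functions are closed under primitive recursion -/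
theorem lnatrec {s : α → ℕ} {f : α → β} {h : α → ℕ → β → β} (hs : LimComp s)
    (hf : LimComp f) (hh : LimComp (fun p : α × ℕ × β => h p.1 p.2.1 p.2.2)) :
    LimComp (fun a => (Nat.rec (f a) (fun n ih => h a n ih) (s a) : β)) := by
  obtain ⟨S, hS, hS2⟩ := hs
  obtain ⟨F, hF, hF2⟩ := hf
  obtain ⟨H, hH, hH2⟩ := hh
  refine ⟨fun a t => Nat.rec (F a t) (fun n ih => H (a, n, ih) t) (S a t), ?_, fun a => ?_⟩
  · have : Computable (fun p : α × ℕ => (Nat.rec (F p.1 p.2)
        (fun n ih => H (p.1, n, ih) p.2) (S p.1 p.2) : β)) := by
      refine cnatrec (s := fun p : α × ℕ => S p.1 p.2) (f := fun p => F p.1 p.2)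
        (h := fun p n ih => H (p.1, n, ih) p.2) hS hF ?_
      refine hH.comp (f := fun q : α × ℕ × β => H q) (g := fun p : (α × ℕ) × ℕ × β => (p.1.1, p.2.1, p.2.2)) (h := fun p : (α × ℕ) × ℕ × β => p.1.2) ?_ ?_
      · fun_prop
      · fun_prop
    exact this
  · have key : ∀ n, ∃ t0, ∀ t, t0 ≤ t →
        (Nat.rec (F a t) (fun n ih => H (a, n, ih) t) n : β) =
          (Nat.rec (f a) (fun n ih => h a n ih) n : β) := by
      intro n
      induction n with
      | zero =>
        obtain ⟨t0, h0⟩ := hF2 a
        exact ⟨t0, fun t ht => h0 t ht⟩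
      | succ n ih =>
        obtain ⟨t1, h1⟩ := ih
        obtain ⟨t2, h2⟩ := hH2 (a, n, (Nat.rec (f a) (fun n ih => h a n ih) n : β))
        refine ⟨max t1 t2, fun t ht => ?_⟩
        have e1 := h1 t (le_trans (le_max_left _ _) ht)
        have e2 := h2 t (le_trans (le_max_right _ _) ht)
        show H (a, n, (Nat.rec (F a t) (fun n ih => H (a, n, ih) t) n : β)) t =
          h a n (Nat.rec (f a) (fun n ih => h a n ih) n : β)
        rw [e1, e2]
    obtain ⟨t1, h1⟩ := key (s a)
    obtain ⟨t2, h2⟩ := hS2 a
    refine ⟨max t1 t2, fun t ht => ?_⟩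
    show (Nat.rec (F a t) (fun n ih => H (a, n, ih) t) (S a t) : β) = _
    rw [h2 t (le_trans (le_max_right _ _) ht)]
    exact h1 t (le_trans (le_max_left _ _) ht)

@[fun_prop] theorem lbsearch {Q : α → ℕ → Option β} {s : α → ℕ}
    (hQ : LimComp (fun p : α × ℕ => Q p.1 p.2)) (hs : LimComp s) :
    LimComp (fun a => bsearch (Q a) (s a)) := by
  unfold bsearch
  refine lnatrec (f := fun _ => (none : Option β)) (h := fun a n ih => (ih <|> Q a n)) hs
    (lconst none) ?_
  have h1 : LimComp (fun p : α × ℕ × Option β => p.2.2) := by fun_prop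
  have h2 : LimComp (fun p : α × ℕ × Option β => Q p.1 p.2.1) :=
    lcomp (f := fun p : α × ℕ => Q p.1 p.2) (g := fun p : α × ℕ × Option β => (p.1, p.2.1)) hQ
      (by fun_prop)
  exact lorElse h1 h2

/-- unbounded search over a computable predicate is limit computable -/
theorem lfirst {Q : α → ℕ → Option β} (hQ : Computable (fun p : α × ℕ => Q p.1 p.2)) :
    LimComp (fun a => first (Q a)) :=
  ⟨fun a s => bsearch (Q a) s, by
    have : Computable (fun p : α × ℕ => bsearch (Q p.1) p.2) := by
      refine cbsearch (Q := fun p : α × ℕ => Q p.1) (s := fun p : α × ℕ => p.2) ?_ ?_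
      · exact hQ.comp ((Computable.fst.comp Computable.fst).pair Computable.snd)
      · exact Computable.snd
    exact this, fun a => bsearch_first (Q a)⟩

/-- total unbounded search over a limit computable predicate is limit computable -/
theorem lfind {P : α → ℕ → Bool} (hP : LimComp (fun p : α × ℕ => P p.1 p.2))
    (hex : ∀ a, ∃ n, P a n = true) : LimComp (fun a => Nat.find (hex a)) := by
  obtain ⟨G, hG, hG2⟩ := hP
  refine ⟨fun a s => (bsearch (fun n => bif G (a, n) s then some n else none) s).getD 0, ?_,
    fun a => ?_⟩
  · have : Computable (fun p : α × ℕ =>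
        (bsearch (fun n => bif G (p.1, n) p.2 then some n else none) p.2).getD 0) := by
      refine cgetD ?_ (by fun_prop)
      refine cbsearch (Q := fun (p : α × ℕ) (n : ℕ) => bif G (p.1, n) p.2 then some n else none)
        (s := fun p : α × ℕ => p.2) ?_ Computable.snd
      refine ccond (c := fun p : (α × ℕ) × ℕ => G (p.1.1, p.2) p.1.2)
        (f := fun p => some p.2) (g := fun _ => none) ?_ ?_ ?_
      · refine hG.comp (f := fun q : α × ℕ => G q) (g := fun p : (α × ℕ) × ℕ => (p.1.1, p.2))
          (h := fun p => p.1.2) ?_ ?_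
        · fun_prop
        · fun_prop
      · fun_prop
      · exact Computable.const none
    exact this
  · have key : ∀ N, ∃ s0, ∀ s, s0 ≤ s → ∀ n < N, G (a, n) s = P a n := by
      intro N
      induction N with
      | zero => exact ⟨0, fun s _ n hn => absurd hn (Nat.not_lt_zero n)⟩
      | succ N ih =>
        obtain ⟨s1, h1⟩ := ih
        obtain ⟨s2, h2⟩ := hG2 (a, N)
        refine ⟨max s1 s2, fun s hs n hn => ?_⟩
        rcases Nat.lt_succ_iff_lt_or_eq.1 hn with h | h
        · exact h1 s (le_trans (le_max_left _ _) hs) n h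
        · subst h; exact h2 s (le_trans (le_max_right _ _) hs)
    obtain ⟨s1, h1⟩ := key (Nat.find (hex a) + 1)
    refine ⟨max s1 (Nat.find (hex a) + 1), fun s hs => ?_⟩
    have h2 := h1 s (le_trans (le_max_left _ _) hs)
    have h3 : bsearch (fun n => bif G (a, n) s then some n else none) s
        = some (Nat.find (hex a)) := by
      rw [bsearch_eq_some]
      refine ⟨Nat.find (hex a), lt_of_lt_of_le (Nat.lt_succ_self _)
        (le_trans (le_max_right _ _) hs), ?_, fun m hm => ?_⟩
      · show (bif G (a, Nat.find (hex a)) s then some (Nat.find (hex a)) else none) = _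
        rw [h2 _ (Nat.lt_succ_self _), Nat.find_spec (hex a)]
        rfl
      · show (bif G (a, m) s then some m else none) = none
        rw [h2 m (Nat.lt_succ_of_lt hm)]
        have := Nat.find_min (hex a) hm
        simp only [Bool.not_eq_true] at this
        rw [this]
        rfl
    show (bsearch (fun n => bif G (a, n) s then some n else none) s).getD 0 = _
    rw [h3]
    rfl

end lim

end Pool.Agent.Helper17.DS
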