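import Pool.Agent.Helper17.DS1

/-!
The universal r.e. set, oracle functionals on strings, and the finite-extension construction.
-/

set_option autoImplicit false

namespace Pool.Agent.Helper17.DS

open Nat.Partrec (Code)

/-- stage `s` approximation of the universal r.e. set -/
def Ks (s y : ℕ) : Bool :=
  (Code.evaln s (Denumerable.ofNat Code y.unpair.1) y.unpair.2).isSome

/-- the universal r.e. set: pairs (code, input) with halting computation -/
def K (y : ℕ) : Prop := ∃ s, Ks s y = true

/-- its characteristic function, Boolean valued -/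
noncomputable def kb (y : ℕ) : Bool := by classical exact decide (K y)

/-- its characteristic function, with values 0 and 1 -/
noncomputable def kap (y : ℕ) : ℕ := bif kb y then 1 else 0

theorem kb_iff {y : ℕ} : kb y = true ↔ K y := by classical simp [kb]
theorem kb_false_iff {y : ℕ} : kb y = false ↔ ¬ K y := by classical simp [kb]

theorem Ks_mono {s t y : ℕ} (h : s ≤ t) (hs : Ks s y = true) : Ks t y = true := by
  unfold Ks at *
  obtain ⟨x, hx⟩ := Option.isSome_iff_exists.1 hs
  have := Code.evaln_mono h (Option.mem_def.2 hx)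
  rw [Option.mem_def.1 this]
  rfl

section
variable {α β γ : Type*} [Primcodable α] [Primcodable β] [Primcodable γ]

@[fun_prop] theorem cKs {f g : α → ℕ} (hf : Computable f) (hg : Computable g) :
    Computable (fun a => Ks (f a) (g a)) := by
  unfold Ks
  fun_prop

@[fun_prop] theorem lkb {f : α → ℕ} (hf : LimComp f) : LimComp (fun a => kb (f a)) := by
  refine lcomp (f := kb) ?_ hf
  refine ⟨fun y s => Ks s y, ?_, fun y => ?_⟩
  · have : Computable (fun p : ℕ × ℕ => Ks p.2 p.1) := by fun_prop
    exact this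
  · by_cases h : K y
    · obtain ⟨s0, h0⟩ := h
      refine ⟨s0, fun s hs => ?_⟩
      show Ks s y = kb y
      rw [Ks_mono hs h0, kb_iff.2 ⟨s0, h0⟩]
    · refine ⟨0, fun s _ => ?_⟩
      show Ks s y = kb y
      rw [kb_false_iff.2 h]
      by_contra h1
      exact h ⟨s, by simpa using h1⟩

@[fun_prop] theorem lkap {f : α → ℕ} (hf : LimComp f) : LimComp (fun a => kap (f a)) := by
  unfold kap
  fun_prop

@[fun_prop] theorem lKs {f g : α → ℕ} (hf : LimComp f) (hg : LimComp g) :
    LimComp (fun a => Ks (f a) (g a)) := LimComp.comp2 (by fun_prop) hf hg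

end

theorem eval_dom_iff_Ks (c : Code) (n : ℕ) :
    (Code.eval c n).Dom ↔ K (Nat.pair (Encodable.encode c) n) := by
  rw [Part.dom_iff_mem]
  unfold K Ks
  constructor
  · rintro ⟨x, hx⟩
    obtain ⟨k, hk⟩ := Code.evaln_complete.1 hx
    refine ⟨k, ?_⟩
    rw [Nat.unpair_pair, Denumerable.ofNat_encode, Option.mem_def.1 hk]
    rfl
  · rintro ⟨k, hk⟩
    rw [Nat.unpair_pair, Denumerable.ofNat_encode] at hk
    obtain ⟨x, hx⟩ := Option.isSome_iff_exists.1 hk
    exact ⟨x, Code.evaln_complete.2 ⟨k, hx⟩⟩

/-- universality -/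
theorem K_universal {Q : ℕ → ℕ → Bool} (hQ : Computable (fun p : ℕ × ℕ => Q p.1 p.2)) :
    ∃ e, ∀ n, K (Nat.pair e n) ↔ ∃ s, Q n s = true := by
  have h1 : Partrec (fun n => Nat.rfind (fun s => Part.some (Q n s))) :=
    Partrec.rfind (p := fun n s => Part.some (Q n s)) hQ.partrec
  obtain ⟨c, hc⟩ := Code.exists_code.1 (Partrec.nat_iff.1 h1)
  refine ⟨Encodable.encode c, fun n => ?_⟩
  rw [← eval_dom_iff_Ks, hc]
  refine (Nat.rfind_dom (p := fun s => Part.some (Q n s))).trans ?_
  constructor
  · rintro ⟨s, hs, _⟩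
    exact ⟨s, by simpa using hs⟩
  · rintro ⟨s, hs⟩
    exact ⟨s, by simpa using hs, fun _ => trivial⟩

theorem kb_not_computable : ¬ Computable kb := by
  intro h
  apply ComputablePred.halting_problem 0
  classical
  refine ⟨fun _ => Classical.propDecidable _, ?_⟩
  have h2 : Computable (fun c : Code => kb (Nat.pair (Encodable.encode c) 0)) := by
    refine h.comp ?_
    fun_prop
  refine h2.of_eq fun c => ?_
  unfold kb
  rw [eq_comm, decide_eq_decide]
  exact eval_dom_iff_Ks c 0

/-- oracle functional number `c` on the string `r` and input `x`, resources bounded by the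
length of `r` -/
def Phi (c : ℕ) (r : List Bool) (x : ℕ) : Option ℕ :=
  bsearch (fun j => Code.evaln j.unpair.1 (Denumerable.ofNat Code c)
    (Encodable.encode (r.take j.unpair.2, x))) r.length

section
variable {α β γ : Type*} [Primcodable α] [Primcodable β] [Primcodable γ]

@[fun_prop] theorem cPhi {f h : α → ℕ} {g : α → List Bool} (hf : Computable f)
    (hg : Computable g) (hh : Computable h) :
    Computable (fun a => Phi (f a) (g a) (h a)) := by
  unfold Phi
  fun_prop

@[fun_prop] theorem lPhi {f h : α → ℕ} {g : α → List Bool} (hf : LimComp f)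
    (hg : LimComp g) (hh : LimComp h) :
    LimComp (fun a => Phi (f a) (g a) (h a)) :=
  lcomp (f := fun p : ℕ × List Bool × ℕ => Phi p.1 p.2.1 p.2.2)
    (LimComp.of_comp (by fun_prop)) (lpair hf (lpair hg hh))
end

theorem take_eq_of_le {α : Type*} {r r' : List α} (h : r <+: r') {m : ℕ} (hm : m ≤ r.length) :
    r'.take m = r.take m := by
  obtain ⟨t, rfl⟩ := h
  rw [List.take_append_of_le_length hm]

theorem Phi_mono {c x v : ℕ} {r r' : List Bool} (h : r <+: r') (hv : Phi c r x = some v) :
    Phi c r' x = some v := by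
  unfold Phi at *
  rw [bsearch_eq_some] at *
  obtain ⟨j, hj, h1, h2⟩ := hv
  have hle : ∀ k, k < r.length → r'.take k.unpair.2 = r.take k.unpair.2 := by
    intro k hk
    apply take_eq_of_le h
    exact le_trans (Nat.unpair_right_le k) (le_of_lt hk)
  refine ⟨j, lt_of_lt_of_le hj h.length_le, ?_, fun m hm => ?_⟩
  · rw [hle j hj]; exact h1
  · rw [hle m (lt_trans hm hj)]; exact h2 m hm

/-- every partial recursive functional on strings is simulated -/
theorem exists_Phi {F : List Bool → ℕ →. ℕ} (hF : Partrec₂ F) :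
    ∃ c, (∀ r x v, Phi c r x = some v → ∃ m, v ∈ F (r.take m) x) ∧
      (∀ s x v, v ∈ F s x → ∃ N, ∀ r, s <+: r → N ≤ r.length → (Phi c r x).isSome = true) := by
  obtain ⟨c, hc⟩ := Code.exists_code.1 hF
  have hev : ∀ s x, Code.eval c (Encodable.encode (s, x)) = F s x := by
    intro s x
    rw [hc]
    simp only [Encodable.encodek, Part.coe_some, Part.bind_some]
    exact Part.map_id' (fun _ => rfl) _
  refine ⟨Encodable.encode c, ?_, ?_⟩
  · intro r x v hv
    unfold Phi at hv
    rw [bsearch_eq_some] at hv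
    obtain ⟨j, _, h1, _⟩ := hv
    refine ⟨j.unpair.2, ?_⟩
    rw [Denumerable.ofNat_encode] at h1
    rw [← hev]
    exact Code.evaln_sound h1
  · intro s x v hv
    rw [← hev] at hv
    obtain ⟨k, hk⟩ := Code.evaln_complete.1 hv
    refine ⟨Nat.pair k s.length + 1, fun r hr hN => ?_⟩
    have hne : Phi (Encodable.encode c) r x ≠ none := by
      unfold Phi
      rw [ne_eq, bsearch_eq_none]
      intro hall
      have := hall (Nat.pair k s.length) hN
      rw [Nat.unpair_pair, Denumerable.ofNat_encode] at this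
      simp only at this
      rw [take_eq_of_le hr le_rfl, List.take_length, Option.mem_def.1 hk] at this
      simp at this
    exact Option.isSome_iff_ne_none.2 hne

/-! markers -/

/-- components of a marker code -/
def mE (c : ℕ) : ℕ := c.unpair.1
def mN (c : ℕ) : ℕ := c.unpair.2.unpair.1
def mL (c : ℕ) : ℕ := c.unpair.2.unpair.2.unpair.1
def mS (c : ℕ) : ℕ := c.unpair.2.unpair.2.unpair.2
/-- the code of a marker -/
def mk (e n l s : ℕ) : ℕ := Nat.pair e (Nat.pair n (Nat.pair l s))

@[simp] theorem mE_mk (e n l s : ℕ) : mE (mk e n l s) = e := by simp [mE, mk]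
@[simp] theorem mN_mk (e n l s : ℕ) : mN (mk e n l s) = n := by simp [mN, mk]
@[simp] theorem mL_mk (e n l s : ℕ) : mL (mk e n l s) = l := by simp [mL, mk]
@[simp] theorem mS_mk (e n l s : ℕ) : mS (mk e n l s) = s := by simp [mS, mk]

theorem le_mk (e n l s : ℕ) : s ≤ mk e n l s :=
  le_trans (Nat.right_le_pair l s) (le_trans (Nat.right_le_pair n _) (Nat.right_le_pair e _))

theorem mL_le (c : ℕ) : mL c ≤ c :=
  le_trans (Nat.unpair_left_le _) (le_trans (Nat.unpair_right_le _) (Nat.unpair_right_le _))

section
variable {α β γ : Type*} [Primcodable α] [Primcodable β] [Primcodable γ]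
@[fun_prop] theorem cmE {f : α → ℕ} (hf : Computable f) : Computable (fun a => mE (f a)) := by
  unfold mE; fun_prop
@[fun_prop] theorem cmN {f : α → ℕ} (hf : Computable f) : Computable (fun a => mN (f a)) := by
  unfold mN; fun_prop
@[fun_prop] theorem cmL {f : α → ℕ} (hf : Computable f) : Computable (fun a => mL (f a)) := by
  unfold mL; fun_prop
@[fun_prop] theorem cmS {f : α → ℕ} (hf : Computable f) : Computable (fun a => mS (f a)) := by
  unfold mS; fun_prop
@[fun_prop] theorem cmk {f g h k : α → ℕ} (hf : Computable f) (hg : Computable g)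
    (hh : Computable h) (hk : Computable k) :
    Computable (fun a => mk (f a) (g a) (h a) (k a)) := by
  unfold mk; fun_prop
@[fun_prop] theorem lmE {f : α → ℕ} (hf : LimComp f) : LimComp (fun a => mE (f a)) := by
  unfold mE; fun_prop
@[fun_prop] theorem lmN {f : α → ℕ} (hf : LimComp f) : LimComp (fun a => mN (f a)) := by
  unfold mN; fun_prop
@[fun_prop] theorem lmL {f : α → ℕ} (hf : LimComp f) : LimComp (fun a => mL (f a)) := by
  unfold mL; fun_prop
@[fun_prop] theorem lmS {f : α → ℕ} (hf : LimComp f) : LimComp (fun a => mS (f a)) := by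
  unfold mS; fun_prop
@[fun_prop] theorem lmk {f g h k : α → ℕ} (hf : LimComp f) (hg : LimComp g)
    (hh : LimComp h) (hk : LimComp k) :
    LimComp (fun a => mk (f a) (g a) (h a) (k a)) := by
  unfold mk; fun_prop
end

/-- the `e`-th r.e. set -/
def W (e n : ℕ) : Prop := K (Nat.pair e n)

/-- `r` extends `p` and all new markers for indices `< i` are refuted -/
def Safe (i : ℕ) (p r : List Bool) : Prop :=
  p <+: r ∧ ∀ c, p.length ≤ c → bitAt r c = true → mE c < i → W (mE c) (mN c)

theorem bitAt_lt {r : List Bool} {c : ℕ} (h : bitAt r c = true) : c < r.length := by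
  unfold bitAt at h
  by_contra h1
  rw [List.getElem?_eq_none (by omega)] at h
  simp at h

theorem bitAt_of_isPrefix {r r' : List Bool} (h : r <+: r') {c : ℕ} (hc : c < r.length) :
    bitAt r' c = bitAt r c := by
  obtain ⟨t, rfl⟩ := h
  unfold bitAt
  rw [List.getElem?_append_left hc]

theorem Safe.refl (i : ℕ) (p : List Bool) : Safe i p p :=
  ⟨List.prefix_rfl, fun c h1 h2 _ => absurd (bitAt_lt h2) (by omega)⟩

theorem Safe.trans {i : ℕ} {p q r : List Bool} (h1 : Safe i p q) (h2 : Safe i q r) :
    Safe i p r := by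
  refine ⟨h1.1.trans h2.1, fun c hc hb he => ?_⟩
  by_cases hq : q.length ≤ c
  · exact h2.2 c hq hb he
  · refine h1.2 c hc ?_ he
    rw [← bitAt_of_isPrefix h2.1 (by omega)]
    exact hb

theorem Safe.mono {i j : ℕ} {p r : List Bool} (hij : i ≤ j) (h : Safe j p r) : Safe i p r :=
  ⟨h.1, fun c h1 h2 h3 => h.2 c h1 h2 (lt_of_lt_of_le h3 hij)⟩

theorem Safe.left {i : ℕ} {p q r : List Bool} (h : Safe i p r) (h1 : p <+: q) (h2 : q <+: r) :
    Safe i p q := by
  refine ⟨h1, fun c hc hb he => h.2 c hc ?_ he⟩
  rw [bitAt_of_isPrefix h2 (bitAt_lt hb)]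
  exact hb

/-- a string of zeros -/
def zeros (n : ℕ) : List Bool := Nat.rec [] (fun _ ih => false :: ih) n

@[simp] theorem zeros_length (n : ℕ) : (zeros n).length = n := by
  induction n with
  | zero => rfl
  | succ n ih => show (false :: zeros n).length = n + 1; simp [ih]

theorem bitAt_zeros (n c : ℕ) : bitAt (zeros n) c = false := by
  induction n generalizing c with
  | zero => rfl
  | succ n ih =>
    show bitAt (false :: zeros n) c = false
    cases c with
    | zero => rfl
    | succ c => exact ih c

theorem bitAt_append_right {p q : List Bool} {c : ℕ} (h : p.length ≤ c) :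
    bitAt (p ++ q) c = bitAt q (c - p.length) := by
  unfold bitAt
  rw [List.getElem?_append_right h]

theorem Safe.zeros (i : ℕ) (p : List Bool) (n : ℕ) : Safe i p (p ++ zeros n) := by
  refine ⟨List.prefix_append _ _, fun c hc hb _ => ?_⟩
  rw [bitAt_append_right hc, bitAt_zeros] at hb
  simp at hb

/-- stage-wise test for `Safe` -/
def safeAt (i : ℕ) (p r : List Bool) (u : ℕ) : Bool :=
  decide (r.take p.length = p) &&
  !(bsearch (fun c => bif (leb p.length c && bitAt r c && leb (mE c + 1) i &&
      !Ks u (Nat.pair (mE c) (mN c))) then some c else none) r.length).isSome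

section
variable {α β γ : Type*} [Primcodable α] [Primcodable β] [Primcodable γ]

@[fun_prop] theorem czeros {f : α → ℕ} (hf : Computable f) :
    Computable (fun a => zeros (f a)) := by
  unfold zeros
  exact cnatrec (f := fun _ => ([] : List Bool)) (h := fun _ _ ih => false :: ih) hf
    (Computable.const []) (by fun_prop)

@[fun_prop] theorem lzeros {f : α → ℕ} (hf : LimComp f) :
    LimComp (fun a => zeros (f a)) := LimComp.comp1 (by fun_prop) hf

theorem ceqlist {f g : α → List Bool} (hf : Computable f) (hg : Computable g) :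
    Computable (fun a => decide (f a = g a)) := (Primrec.eq.decide.to_comp).comp hf hg

@[fun_prop] theorem csafeAt {i u : α → ℕ} {p r : α → List Bool} (hi : Computable i)
    (hu : Computable u) (hp : Computable p) (hr : Computable r) :
    Computable (fun a => safeAt (i a) (p a) (r a) (u a)) := by
  unfold safeAt
  refine cand (ceqlist (by fun_prop) hp) ?_
  fun_prop
end

theorem safeAt_iff {i : ℕ} {p r : List Bool} {u : ℕ} :
    safeAt i p r u = true ↔ (p <+: r ∧ ∀ c, p.length ≤ c → bitAt r c = true → mE c < i →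
      Ks u (Nat.pair (mE c) (mN c)) = true) := by
  unfold safeAt
  simp only [Bool.and_eq_true, decide_eq_true_eq, Bool.not_eq_true', Option.isSome_eq_false_iff,
    Option.isNone_iff_eq_none, bsearch_eq_none]
  constructor
  · rintro ⟨h1, h2⟩
    refine ⟨List.prefix_iff_eq_take.2 h1.symm, fun c hc hb he => ?_⟩
    have := h2 c (bitAt_lt hb)
    by_contra h3
    simp only [Bool.not_eq_true] at h3
    rw [leb_iff.2 hc, hb, leb_iff.2 (by omega : mE c + 1 ≤ i), h3] at this
    simp at this
  · rintro ⟨h1, h2⟩
    refine ⟨(List.prefix_iff_eq_take.1 h1).symm, fun c hc => ?_⟩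
    by_cases ha : p.length ≤ c
    · by_cases hb : bitAt r c = true
      · by_cases he : mE c < i
        · rw [h2 c ha hb he]; simp
        · rw [leb_false_iff.2 (by omega : i < mE c + 1)]; simp
      · simp only [Bool.not_eq_true] at hb
        rw [hb]; simp
    · rw [leb_false_iff.2 (by omega : c < p.length)]; simp

theorem Safe_iff {i : ℕ} {p r : List Bool} : Safe i p r ↔ ∃ u, safeAt i p r u = true := by
  constructor
  · rintro ⟨h1, h2⟩
    have key : ∀ N, ∃ u, ∀ c < N, p.length ≤ c → bitAt r c = true → mE c < i →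
        Ks u (Nat.pair (mE c) (mN c)) = true := by
      intro N
      induction N with
      | zero => exact ⟨0, fun c hc => absurd hc (Nat.not_lt_zero _)⟩
      | succ N ih =>
        obtain ⟨u, hu⟩ := ih
        by_cases hN : p.length ≤ N ∧ bitAt r N = true ∧ mE N < i
        · obtain ⟨v, hv⟩ := h2 N hN.1 hN.2.1 hN.2.2
          refine ⟨max u v, fun c hc ha hb he => ?_⟩
          rcases Nat.lt_succ_iff_lt_or_eq.1 hc with h | h
          · exact Ks_mono (le_max_left _ _) (hu c h ha hb he)
          · subst h
            exact Ks_mono (le_max_right _ _) hv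
        · refine ⟨u, fun c hc ha hb he => ?_⟩
          rcases Nat.lt_succ_iff_lt_or_eq.1 hc with h | h
          · exact hu c h ha hb he
          · subst h; exact absurd ⟨ha, hb, he⟩ hN
    obtain ⟨u, hu⟩ := key r.length
    exact ⟨u, safeAt_iff.2 ⟨h1, fun c hc hb he => hu c (bitAt_lt hb) hc hb he⟩⟩
  · rintro ⟨u, hu⟩
    rw [safeAt_iff] at hu
    exact ⟨hu.1, fun c h1 h2 h3 => ⟨u, hu.2 c h1 h2 h3⟩⟩

/-! convergence on safe extensions -/

/-- some `i`-safe extension of `p` makes functional `i` converge on `x` -/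
def V (i : ℕ) (p : List Bool) (x : ℕ) : Prop := ∃ r, Safe i p r ∧ (Phi i r x).isSome = true

/-- search for such an extension -/
def vQ (i : ℕ) (p : List Bool) (x n : ℕ) : Option ℕ :=
  (Encodable.decode n.unpair.1 : Option (List Bool)).bind fun r =>
    bif safeAt i p r n.unpair.2 then Phi i r x else none

noncomputable def vb (i : ℕ) (p : List Bool) (x : ℕ) : Bool := (first (vQ i p x)).isSome

theorem vb_iff {i : ℕ} {p : List Bool} {x : ℕ} : vb i p x = true ↔ V i p x := by
  unfold vb
  constructor
  · intro h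
    obtain ⟨v, hv⟩ := Option.isSome_iff_exists.1 h
    obtain ⟨n, hn, _⟩ := first_eq_some.1 hv
    unfold vQ at hn
    rw [Option.bind_eq_some_iff] at hn
    obtain ⟨r, _, hr⟩ := hn
    cases hs : safeAt i p r n.unpair.2 with
    | false => rw [hs] at hr; simp at hr
    | true =>
      rw [hs] at hr
      refine ⟨r, Safe_iff.2 ⟨_, hs⟩, ?_⟩
      simp only [cond_true] at hr
      rw [hr]; rfl
  · rintro ⟨r, h1, h2⟩
    obtain ⟨u, hu⟩ := Safe_iff.1 h1
    rw [Option.isSome_iff_ne_none]
    intro h3
    have := first_eq_none.1 h3 (Nat.pair (Encodable.encode r) u)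
    unfold vQ at this
    rw [Nat.unpair_pair] at this
    simp only [Encodable.encodek, Option.bind_some, hu, cond_true] at this
    rw [this] at h2
    simp at h2

/-- search for an `i`-safe extension giving a value different from `b` -/
def pQ (i : ℕ) (p : List Bool) (x b n : ℕ) : Option (List Bool) :=
  (Encodable.decode n.unpair.1 : Option (List Bool)).bind fun r =>
    bif safeAt i p r n.unpair.2 && leb x r.length &&
      ((Phi i r x).map fun v => !eqb v b).getD false then some r else none

noncomputable def posr (i : ℕ) (p : List Bool) (x : ℕ) : Option (List Bool) :=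
  first (pQ i p x (kap x))

theorem diff_iff {o : Option ℕ} {b : ℕ} :
    (o.map fun v => !eqb v b).getD false = true ↔ ∃ v, o = some v ∧ v ≠ b := by
  cases o with
  | none => simp
  | some v => simp

theorem posr_some {i : ℕ} {p : List Bool} {x : ℕ} {r : List Bool} (h : posr i p x = some r) :
    Safe i p r ∧ x ≤ r.length ∧ ∃ v, Phi i r x = some v ∧ v ≠ kap x := by
  unfold posr at h
  obtain ⟨n, hn, _⟩ := first_eq_some.1 h
  unfold pQ at hn
  rw [Option.bind_eq_some_iff] at hn
  obtain ⟨r', _, hr⟩ := hn
  cases hs : (safeAt i p r' n.unpair.2 && leb x r'.length &&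
      ((Phi i r' x).map fun v => !eqb v (kap x)).getD false) with
  | false => rw [hs] at hr; simp at hr
  | true =>
    rw [hs] at hr
    simp only [cond_true, Option.some_inj] at hr
    subst hr
    simp only [Bool.and_eq_true] at hs
    exact ⟨Safe_iff.2 ⟨_, hs.1.1⟩, leb_iff.1 hs.1.2, diff_iff.1 hs.2⟩

theorem posr_none {i : ℕ} {p : List Bool} {x : ℕ} (h : posr i p x = none) {r : List Bool}
    (h1 : Safe i p r) (h2 : x ≤ r.length) {v : ℕ} (h3 : Phi i r x = some v) : v = kap x := by
  by_contra h4
  obtain ⟨u, hu⟩ := Safe_iff.1 h1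
  have := first_eq_none.1 h (Nat.pair (Encodable.encode r) u)
  unfold pQ at this
  rw [Nat.unpair_pair] at this
  simp only [Encodable.encodek, Option.bind_some, hu, leb_iff.2 h2] at this
  rw [diff_iff.2 ⟨v, h3, h4⟩] at this
  simp at this

section
variable {α β γ : Type*} [Primcodable α] [Primcodable β] [Primcodable γ]

@[fun_prop] theorem lvb {i x : α → ℕ} {p : α → List Bool} (hi : LimComp i)
    (hp : LimComp p) (hx : LimComp x) : LimComp (fun a => vb (i a) (p a) (x a)) := by
  refine lcomp (f := fun q : ℕ × List Bool × ℕ => vb q.1 q.2.1 q.2.2) ?_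
    (lpair hi (lpair hp hx))
  unfold vb
  refine lisSome (lfirst (Q := fun q : ℕ × List Bool × ℕ => vQ q.1 q.2.1 q.2.2) ?_)
  unfold vQ
  refine cbind (β := List Bool)
    (f := fun p : (ℕ × List Bool × ℕ) × ℕ => (Encodable.decode p.2.unpair.1 : Option (List Bool)))
    (g := fun p r => bif safeAt p.1.1 p.1.2.1 r p.2.unpair.2 then Phi p.1.1 r p.1.2.2 else none)
    ?_ ?_
  · exact cdecode (by fun_prop)
  · fun_prop

@[fun_prop] theorem lposr {i x : α → ℕ} {p : α → List Bool} (hi : LimComp i)
    (hp : LimComp p) (hx : LimComp x) : LimComp (fun a => posr (i a) (p a) (x a)) := by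
  unfold posr
  refine lcomp (f := fun q : ℕ × List Bool × ℕ × ℕ => first (pQ q.1 q.2.1 q.2.2.1 q.2.2.2))
    (g := fun a => (i a, p a, x a, kap (x a))) ?_ (by fun_prop)
  refine lfirst (Q := fun q : ℕ × List Bool × ℕ × ℕ => pQ q.1 q.2.1 q.2.2.1 q.2.2.2) ?_
  unfold pQ
  refine cbind (β := List Bool)
    (f := fun p : (ℕ × List Bool × ℕ × ℕ) × ℕ =>
      (Encodable.decode p.2.unpair.1 : Option (List Bool)))
    (g := fun p r => bif safeAt p.1.1 p.1.2.1 r p.2.unpair.2 && leb p.1.2.2.1 r.length &&
      ((Phi p.1.1 r p.1.2.2.1).map fun v => !eqb v p.1.2.2.2).getD false then some r else none)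
    ?_ ?_
  · exact cdecode (by fun_prop)
  · fun_prop
end

end Pool.Agent.Helper17.DS
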