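import Pool.Agent.Helper17.DS2

/-!
The finite-extension construction relative to the universal r.e. set.
-/

set_option autoImplicit false

namespace Pool.Agent.Helper17.DS

open Nat.Partrec (Code)

section
variable {α β γ : Type*} [Primcodable α] [Primcodable β] [Primcodable γ]

@[fun_prop] theorem lelim {o : α → Option β} {f : α → γ} {g : α → β → γ} (ho : LimComp o)
    (hf : LimComp f) (hg : LimComp (fun p : α × β => g p.1 p.2)) :
    LimComp (fun a => ((o a).elim (f a) (g a) : γ)) := lcase ho hf hg

@[fun_prop] theorem lmap {f : α → Option β} {g : α → β → γ} (hf : LimComp f)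
    (hg : LimComp (fun p : α × β => g p.1 p.2)) :
    LimComp (fun a => (f a).map (g a)) := by
  have : LimComp (fun a => ((f a).elim none (fun b => some (g a b)) : Option γ)) :=
    lcase hf (lconst none) (lsome hg)
  have h2 : (fun a => (f a).map (g a)) =
      (fun a => ((f a).elim none (fun b => some (g a b)) : Option γ)) := by
    funext a
    cases f a <;> rfl
  rw [h2]
  exact this
end

/-- requirement `i` is already diagonalised by `p` -/
noncomputable def wonb (i : ℕ) (p : List Bool) : Bool :=
  (bsearch (fun x => bif ((Phi i p x).map fun v => !eqb v (kap x)).getD false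
    then some x else none) (p.length + 1)).isSome

theorem wonb_iff {i : ℕ} {p : List Bool} :
    wonb i p = true ↔ ∃ x ≤ p.length, ∃ v, Phi i p x = some v ∧ v ≠ kap x := by
  unfold wonb
  rw [Option.isSome_iff_ne_none, ne_eq, bsearch_eq_none]
  push Not
  constructor
  · rintro ⟨x, hx, h⟩
    refine ⟨x, by omega, diff_iff.1 ?_⟩
    by_contra h1
    simp only [Bool.not_eq_true] at h1
    rw [h1] at h
    simp at h
  · rintro ⟨x, hx, h⟩
    refine ⟨x, by omega, ?_⟩
    rw [diff_iff.2 h]
    simp

theorem exists_nx (i : ℕ) (p : List Bool) :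
    ∃ x, ((posr i p x).isSome || !vb i p x) = true := by
  by_contra hcon
  push Not at hcon
  have h1 : ∀ x, posr i p x = none := by
    intro x
    have := hcon x
    simp only [ne_eq, Bool.or_eq_true, not_or] at this
    simpa using this.1
  have h2 : ∀ x, V i p x := by
    intro x
    have := hcon x
    simp only [ne_eq, Bool.or_eq_true, not_or] at this
    apply vb_iff.1
    simpa using this.2
  have h3 : ∀ x r v, Safe i p r → Phi i r x = some v → v = kap x := by
    intro x r v hr hv
    refine posr_none (h1 x) (hr.trans (Safe.zeros i r x)) ?_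
      (Phi_mono (List.prefix_append _ _) hv)
    simp
  have h4 : Computable kap := by
    have hp : Partrec (fun x => Nat.rfindOpt (vQ i p x)) := by
      refine Partrec.rfindOpt (f := fun x => vQ i p x) ?_
      have : Computable (fun q : ℕ × ℕ => vQ i p q.1 q.2) := by
        unfold vQ
        refine cbind (β := List Bool)
          (f := fun q : ℕ × ℕ => (Encodable.decode q.2.unpair.1 : Option (List Bool)))
          (g := fun q r => bif safeAt i p r q.2.unpair.2 then Phi i r q.1 else none) ?_ ?_
        · exact cdecode (by fun_prop)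
        · fun_prop
      exact this
    refine hp.of_eq_tot fun x => ?_
    have hval : ∀ a ∈ Nat.rfindOpt (vQ i p x), a = kap x := by
      intro a ha
      obtain ⟨n, hn⟩ := Nat.rfindOpt_spec ha
      rw [Option.mem_def] at hn
      unfold vQ at hn
      rw [Option.bind_eq_some_iff] at hn
      obtain ⟨r, _, hr⟩ := hn
      cases hs : safeAt i p r n.unpair.2 with
      | false => rw [hs] at hr; simp at hr
      | true =>
        rw [hs] at hr
        simp only [cond_true] at hr
        exact h3 x r a (Safe_iff.2 ⟨_, hs⟩) hr
    have hdom : (Nat.rfindOpt (vQ i p x)).Dom := by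
      rw [Nat.rfindOpt_dom]
      obtain ⟨r, hr1, hr2⟩ := h2 x
      obtain ⟨v, hv⟩ := Option.isSome_iff_exists.1 hr2
      obtain ⟨u, hu⟩ := Safe_iff.1 hr1
      refine ⟨Nat.pair (Encodable.encode r) u, v, ?_⟩
      rw [Option.mem_def]
      unfold vQ
      rw [Nat.unpair_pair]
      simp only [Encodable.encodek, Option.bind_some, hu, cond_true]
      exact hv
    obtain ⟨a, ha⟩ := Part.dom_iff_mem.1 hdom
    rw [← hval a ha]
    exact ha
  apply kb_not_computable
  have h5 : Computable (fun x => eqb (kap x) 1) := ceqb h4 (Computable.const 1)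
  refine h5.of_eq fun x => ?_
  unfold kap
  cases kb x <;> rfl

/-- least input on which requirement `i` can be decided at `p` -/
noncomputable def nx (i : ℕ) (p : List Bool) : ℕ := Nat.find (exists_nx i p)

/-- the step devoted to requirement `i` -/
noncomputable def nstep (i : ℕ) (p : List Bool) : List Bool :=
  bif wonb i p then p ++ [false]
  else (posr i p (nx i p)).elim (p ++ zeros (nx i p + 1)) (fun r => r ++ [false])

/-- auxiliary predicate for `Lb` -/
noncomputable def lQ (e : ℕ) (p : List Bool) (l : ℕ) : Bool :=
  !(bsearch (fun c => bif bitAt p c && eqb (mE c) e && leb l (mL c) && !kb (Nat.pair e (mN c))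
    then some c else none) p.length).isSome

theorem lQ_iff {e l : ℕ} {p : List Bool} : lQ e p l = true ↔
    ∀ c, bitAt p c = true → mE c = e → ¬ W e (mN c) → mL c < l := by
  unfold lQ
  simp only [Bool.not_eq_true', Option.isSome_eq_false_iff,
    Option.isNone_iff_eq_none, bsearch_eq_none]
  constructor
  · intro h c hb he hw
    by_contra h1
    have := h c (bitAt_lt hb)
    rw [hb, eqb_iff.2 he, leb_iff.2 (by omega : l ≤ mL c), kb_false_iff.2 hw] at this
    simp at this
  · intro h c hc
    by_cases hb : bitAt p c = true
    · by_cases he : mE c = e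
      · by_cases hw : W e (mN c)
        · rw [kb_iff.2 hw]; simp
        · rw [leb_false_iff.2 (h c hb he hw)]; simp
      · rw [eqb_false_iff.2 he]; simp
    · simp only [Bool.not_eq_true] at hb
      rw [hb]; simp

theorem exists_l (e : ℕ) (p : List Bool) : ∃ l, lQ e p l = true :=
  ⟨p.length, lQ_iff.2 fun c hb _ _ => lt_of_le_of_lt (mL_le c) (bitAt_lt hb)⟩

/-- the length of information to be coded next for index `e` -/
noncomputable def Lb (e : ℕ) (p : List Bool) : ℕ := Nat.find (exists_l e p)

theorem Lb_spec {e c : ℕ} {p : List Bool} (h1 : bitAt p c = true) (h2 : mE c = e)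
    (h3 : ¬ W e (mN c)) : mL c < Lb e p :=
  lQ_iff.1 (Nat.find_spec (exists_l e p)) c h1 h2 h3

theorem Lb_min {e l : ℕ} {p : List Bool} (h : l < Lb e p) :
    ∃ c, bitAt p c = true ∧ mE c = e ∧ l ≤ mL c ∧ ¬ W e (mN c) := by
  have := Nat.find_min (exists_l e p) h
  rw [lQ_iff] at this
  push Not at this
  obtain ⟨c, h1, h2, h3, h4⟩ := this
  exact ⟨c, h1, h2, h4, h3⟩

theorem Lb_mono {e : ℕ} {p p' : List Bool} (h : p <+: p') : Lb e p ≤ Lb e p' := by
  by_contra h1
  push Not at h1
  obtain ⟨c, hb, he, hl, hw⟩ := Lb_min h1
  have h2 : bitAt p' c = true := by rw [bitAt_of_isPrefix h (bitAt_lt hb)]; exact hb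
  have := Lb_spec h2 he hw
  omega

/-- `K` restricted to `l` is settled by stage `s` -/
noncomputable def Cb (l s : ℕ) : Bool :=
  !(bsearch (fun y => bif kb y && !Ks s y then some y else none) l).isSome

theorem Cb_iff {l s : ℕ} : Cb l s = true ↔ ∀ y < l, K y → Ks s y = true := by
  unfold Cb
  simp only [Bool.not_eq_true', Option.isSome_eq_false_iff,
    Option.isNone_iff_eq_none, bsearch_eq_none]
  constructor
  · intro h y hy hk
    by_contra h1
    simp only [Bool.not_eq_true] at h1
    have := h y hy
    rw [kb_iff.2 hk, h1] at this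
    simp at this
  · intro h y hy
    by_cases hk : K y
    · rw [h y hy hk]; simp
    · rw [kb_false_iff.2 hk]; simp

theorem Cb_eventually (l : ℕ) : ∃ s0, ∀ s, s0 ≤ s → Cb l s = true := by
  induction l with
  | zero => exact ⟨0, fun s _ => Cb_iff.2 fun y hy => absurd hy (Nat.not_lt_zero _)⟩
  | succ l ih =>
    obtain ⟨s0, h0⟩ := ih
    by_cases hk : K l
    · obtain ⟨s1, h1⟩ := hk
      refine ⟨max s0 s1, fun s hs => Cb_iff.2 fun y hy hky => ?_⟩
      rcases Nat.lt_succ_iff_lt_or_eq.1 hy with h | h
      · exact Cb_iff.1 (h0 s (le_trans (le_max_left _ _) hs)) y h hky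
      · subst h
        exact Ks_mono (le_trans (le_max_right _ _) hs) h1
    · refine ⟨s0, fun s hs => Cb_iff.2 fun y hy hky => ?_⟩
      rcases Nat.lt_succ_iff_lt_or_eq.1 hy with h | h
      · exact Cb_iff.1 (h0 s hs) y h hky
      · subst h; exact absurd hky hk

/-- the least protected input for requirement `i` -/
noncomputable def beta (i : ℕ) (p : List Bool) : Option ℕ :=
  bsearch (fun x => bif vb i p x then none else some x) (p.length + 1)

theorem beta_some {i x : ℕ} {p : List Bool} (h : beta i p = some x) :
    x ≤ p.length ∧ ¬ V i p x := by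
  unfold beta at h
  rw [bsearch_eq_some] at h
  obtain ⟨n, hn, h1, _⟩ := h
  cases hv : vb i p n with
  | true => rw [hv] at h1; simp at h1
  | false =>
    rw [hv] at h1
    simp only [cond_false, Option.some_inj] at h1
    subst h1
    refine ⟨by omega, fun h2 => ?_⟩
    rw [vb_iff.2 h2] at hv
    simp at hv

theorem beta_of_not_V {i x : ℕ} {p : List Bool} (hx : x ≤ p.length) (h : ¬ V i p x) :
    ∃ y ≤ x, beta i p = some y := by
  have hne : beta i p ≠ none := by
    unfold beta
    rw [ne_eq, bsearch_eq_none]
    intro h1
    have := h1 x (by omega)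
    cases hv : vb i p x with
    | true => exact h (vb_iff.1 hv)
    | false => rw [hv] at this; simp at this
  obtain ⟨y, hy⟩ := Option.ne_none_iff_exists'.1 hne
  refine ⟨y, ?_, hy⟩
  by_contra hlt
  push Not at hlt
  unfold beta at hy
  rw [bsearch_eq_some] at hy
  obtain ⟨n, _, h1, h2⟩ := hy
  cases hv : vb i p n with
  | true => rw [hv] at h1; simp at h1
  | false =>
    rw [hv] at h1
    simp only [cond_false, Option.some_inj] at h1
    subst h1
    have := h2 x hlt
    cases hv' : vb i p x with
    | true => exact h (vb_iff.1 hv')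
    | false => rw [hv'] at this; simp at this

/-- the extension by a marker -/
def qn (e n l : ℕ) (p : List Bool) : List Bool :=
  (p ++ zeros (mk e n l p.length - p.length)) ++ [true]

theorem qn_length (e n l : ℕ) (p : List Bool) :
    (qn e n l p).length = mk e n l p.length + 1 := by
  unfold qn
  have := le_mk e n l p.length
  simp
  omega

theorem qn_bit (e n l : ℕ) (p : List Bool) :
    bitAt (qn e n l p) (mk e n l p.length) = true := by
  unfold qn
  have h := le_mk e n l p.length
  rw [bitAt_append_right (by simp; omega)]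
  have : mk e n l p.length - (p ++ zeros (mk e n l p.length - p.length)).length = 0 := by
    simp; omega
  rw [this]
  rfl

theorem qn_bit_eq {e n l c : ℕ} {p : List Bool} (hc : p.length ≤ c)
    (h : bitAt (qn e n l p) c = true) : c = mk e n l p.length := by
  have h1 := bitAt_lt h
  rw [qn_length] at h1
  by_contra h2
  have h3 : c < mk e n l p.length := by omega
  unfold qn at h
  rw [bitAt_of_isPrefix (r := p ++ zeros (mk e n l p.length - p.length))
    (List.prefix_append _ _) (by simp; omega), bitAt_append_right hc, bitAt_zeros] at h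
  simp at h

theorem prefix_qn (e n l : ℕ) (p : List Bool) : p <+: qn e n l p := by
  unfold qn
  rw [List.append_assoc]
  exact List.prefix_append _ _

theorem qn_safe {e n l i : ℕ} {p : List Bool} (h : i ≤ e ∨ W e n) :
    Safe i p (qn e n l p) := by
  refine ⟨prefix_qn e n l p, fun c hc hb he => ?_⟩
  have := qn_bit_eq hc hb
  subst this
  simp only [mE_mk, mN_mk] at he ⊢
  rcases h with h | h
  · omega
  · exact h

theorem qn_dropLast (e n l : ℕ) (p : List Bool) :
    (qn e n l p).dropLast = p ++ zeros (mk e n l p.length - p.length) := by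
  unfold qn
  rw [List.dropLast_concat]

/-- extending `p` to `q` keeps the protection of requirement `i` -/
noncomputable def respb (i : ℕ) (p q : List Bool) : Bool :=
  (beta i p).elim true (fun x => !vb i q x)

theorem respb_iff {i : ℕ} {p q : List Bool} :
    respb i p q = true ↔ ∀ x, beta i p = some x → ¬ V i q x := by
  unfold respb
  cases h : beta i p with
  | none => simp
  | some x =>
    simp only [Option.elim_some, Bool.not_eq_true', Option.some_inj, forall_eq']
    rw [← vb_iff]
    simp

/-- `n` may be used for a marker for `e` -/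
noncomputable def okb (e l : ℕ) (p : List Bool) (n : ℕ) : Bool :=
  !kb (Nat.pair e n) && !(bsearch (fun i => bif leb (e + 1) i && !respb i p (qn e n l p)
    then some i else none) (l + 1)).isSome

theorem okb_iff {e l n : ℕ} {p : List Bool} : okb e l p n = true ↔
    ¬ W e n ∧ ∀ i, i ≤ l → e < i → respb i p (qn e n l p) = true := by
  unfold okb
  simp only [Bool.and_eq_true, Bool.not_eq_true', Option.isSome_eq_false_iff,
    Option.isNone_iff_eq_none, bsearch_eq_none, kb_false_iff]
  constructor
  · rintro ⟨h1, h2⟩
    refine ⟨h1, fun i hi he => ?_⟩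
    by_contra h3
    simp only [Bool.not_eq_true] at h3
    have := h2 i (by omega)
    rw [leb_iff.2 (by omega : e + 1 ≤ i), h3] at this
    simp at this
  · rintro ⟨h1, h2⟩
    refine ⟨h1, fun i hi => ?_⟩
    by_cases he : e < i
    · rw [h2 i (by omega) he]; simp
    · rw [leb_false_iff.2 (by omega : i < e + 1)]; simp

/-- the step devoted to coding for `e` -/
noncomputable def pstep (e : ℕ) (p : List Bool) (t : ℕ) : List Bool :=
  bif Cb (Lb e p) p.length then
    (bsearch (fun n => bif okb e (Lb e p) p n then some (qn e n (Lb e p) p) else none)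
      (t + 1)).elim (p ++ [false]) (fun q => q)
  else p ++ [false]

/-- one step of the construction -/
noncomputable def step (t : ℕ) (p : List Bool) : List Bool :=
  bif eqb t.unpair.2.unpair.1 0 then nstep t.unpair.1 p else pstep t.unpair.1 p t

/-- the sequence of initial segments -/
noncomputable def Dq (t : ℕ) : List Bool := Nat.rec [] (fun t p => step t p) t

/-- the set constructed -/
noncomputable def Dset (c : ℕ) : Bool := bitAt (Dq (c + 1)) c

/-! ### limit computability -/

section
variable {α β γ : Type*} [Primcodable α] [Primcodable β] [Primcodable γ]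

@[fun_prop] theorem lwonb {i : α → ℕ} {p : α → List Bool} (hi : LimComp i)
    (hp : LimComp p) : LimComp (fun a => wonb (i a) (p a)) := by
  unfold wonb
  fun_prop

theorem lnx' : LimComp (fun q : ℕ × List Bool => nx q.1 q.2) := by
  unfold nx
  exact lfind (P := fun (q : ℕ × List Bool) x => (posr q.1 q.2 x).isSome || !vb q.1 q.2 x)
    (by fun_prop) (fun q => exists_nx q.1 q.2)

attribute [local irreducible] nx

@[fun_prop] theorem lnx {i : α → ℕ} {p : α → List Bool} (hi : LimComp i)
    (hp : LimComp p) : LimComp (fun a => nx (i a) (p a)) :=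
  lcomp (f := fun q : ℕ × List Bool => nx q.1 q.2) lnx' (lpair hi hp)

@[fun_prop] theorem lnstep {i : α → ℕ} {p : α → List Bool} (hi : LimComp i)
    (hp : LimComp p) : LimComp (fun a => nstep (i a) (p a)) := by
  unfold nstep
  fun_prop

theorem lLb' : LimComp (fun q : ℕ × List Bool => Lb q.1 q.2) := by
  unfold Lb
  refine lfind (P := fun (q : ℕ × List Bool) l => lQ q.1 q.2 l) ?_
    (fun q => exists_l q.1 q.2)
  unfold lQ
  fun_prop

attribute [local irreducible] Lb

@[fun_prop] theorem lLb {i : α → ℕ} {p : α → List Bool} (hi : LimComp i)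
    (hp : LimComp p) : LimComp (fun a => Lb (i a) (p a)) :=
  lcomp (f := fun q : ℕ × List Bool => Lb q.1 q.2) lLb' (lpair hi hp)

@[fun_prop] theorem lCb {i p : α → ℕ} (hi : LimComp i)
    (hp : LimComp p) : LimComp (fun a => Cb (i a) (p a)) := by
  unfold Cb
  fun_prop

@[fun_prop] theorem lbeta {i : α → ℕ} {p : α → List Bool} (hi : LimComp i)
    (hp : LimComp p) : LimComp (fun a => beta (i a) (p a)) := by
  unfold beta
  fun_prop

@[fun_prop] theorem cqn {e n l : α → ℕ} {p : α → List Bool} (he : Computable e)
    (hn : Computable n) (hl : Computable l) (hp : Computable p) :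
    Computable (fun a => qn (e a) (n a) (l a) (p a)) := by
  unfold qn
  fun_prop

@[fun_prop] theorem lqn {e n l : α → ℕ} {p : α → List Bool} (he : LimComp e)
    (hn : LimComp n) (hl : LimComp l) (hp : LimComp p) :
    LimComp (fun a => qn (e a) (n a) (l a) (p a)) := by
  unfold qn
  fun_prop

@[fun_prop] theorem lrespb {i : α → ℕ} {p q : α → List Bool} (hi : LimComp i)
    (hp : LimComp p) (hq : LimComp q) : LimComp (fun a => respb (i a) (p a) (q a)) := by
  unfold respb
  fun_prop

@[fun_prop] theorem lokb {e l n : α → ℕ} {p : α → List Bool} (he : LimComp e)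
    (hl : LimComp l) (hp : LimComp p) (hn : LimComp n) :
    LimComp (fun a => okb (e a) (l a) (p a) (n a)) := by
  unfold okb
  fun_prop

@[fun_prop] theorem lpstep {e t : α → ℕ} {p : α → List Bool} (he : LimComp e)
    (hp : LimComp p) (ht : LimComp t) : LimComp (fun a => pstep (e a) (p a) (t a)) := by
  unfold pstep
  fun_prop

@[fun_prop] theorem lstep {t : α → ℕ} {p : α → List Bool} (ht : LimComp t)
    (hp : LimComp p) : LimComp (fun a => step (t a) (p a)) := by
  unfold step
  fun_prop

@[fun_prop] theorem lDq {t : α → ℕ} (ht : LimComp t) : LimComp (fun a => Dq (t a)) := by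
  unfold Dq
  exact lnatrec (f := fun _ => ([] : List Bool)) (h := fun _ t p => step t p) ht
    (lconst []) (by fun_prop)

@[fun_prop] theorem lDset {t : α → ℕ} (ht : LimComp t) : LimComp (fun a => Dset (t a)) := by
  unfold Dset
  fun_prop
end

end Pool.Agent.Helper17.DS
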