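import Pool.Agent.Helper17.DS3

/-!
Verification of the construction.
-/

set_option autoImplicit false

namespace Pool.Agent.Helper17.DS

open Filter

theorem Dq_succ (t : ℕ) : Dq (t + 1) = step t (Dq t) := rfl
theorem Dq_zero : Dq 0 = [] := rfl

theorem snoc_safe (i : ℕ) (p : List Bool) : Safe i p (p ++ [false]) := Safe.zeros i p 1

theorem V_mono {i x : ℕ} {p q : List Bool} (h : Safe i p q) (hv : V i q x) : V i p x := by
  obtain ⟨r, h1, h2⟩ := hv
  exact ⟨r, h.trans h1, h2⟩

/-- the step for requirement `j` really acts -/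
def NAct (j : ℕ) (p : List Bool) : Prop :=
  wonb j p = false ∧ ∃ r, posr j p (nx j p) = some r

theorem nstep_cases (j : ℕ) (p : List Bool) :
    (NAct j p ∧ ∃ r, posr j p (nx j p) = some r ∧ nstep j p = r ++ [false]) ∨
    (¬ NAct j p ∧ wonb j p = true ∧ nstep j p = p ++ [false]) ∨
    (¬ NAct j p ∧ ¬ V j p (nx j p) ∧ nstep j p = p ++ zeros (nx j p + 1)) := by
  cases hw : wonb j p with
  | true =>
    right; left
    refine ⟨fun h => ?_, rfl, ?_⟩
    · rw [h.1] at hw; simp at hw
    · unfold nstep; rw [hw]; rfl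
  | false =>
    cases hp : posr j p (nx j p) with
    | some r =>
      left
      refine ⟨⟨hw, r, hp⟩, r, rfl, ?_⟩
      unfold nstep; rw [hw, hp]; rfl
    | none =>
      right; right
      refine ⟨?_, ?_, ?_⟩
      · rintro ⟨_, r, hr⟩; rw [hp] at hr; simp at hr
      · have := Nat.find_spec (exists_nx j p)
        change ((posr j p (nx j p)).isSome || !vb j p (nx j p)) = true at this
        rw [hp] at this
        simp only [Option.isSome_none, Bool.false_or, Bool.not_eq_true'] at this
        intro h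
        rw [vb_iff.2 h] at this
        simp at this
      · unfold nstep; rw [hw, hp]; rfl

theorem nstep_safe_self (j : ℕ) (p : List Bool) : Safe j p (nstep j p) := by
  rcases nstep_cases j p with ⟨_, r, h1, h2⟩ | ⟨_, _, h2⟩ | ⟨_, _, h2⟩
  · rw [h2]; exact (posr_some h1).1.trans (snoc_safe j r)
  · rw [h2]; exact snoc_safe j p
  · rw [h2]; exact Safe.zeros j p _

theorem nstep_safe_of_not_act {j : ℕ} {p : List Bool} (h : ¬ NAct j p) (i : ℕ) :
    Safe i p (nstep j p) := by
  rcases nstep_cases j p with ⟨h0, _⟩ | ⟨_, _, h2⟩ | ⟨_, _, h2⟩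
  · exact absurd h0 h
  · rw [h2]; exact snoc_safe i p
  · rw [h2]; exact Safe.zeros i p _

theorem nstep_length (j : ℕ) (p : List Bool) : p.length < (nstep j p).length := by
  rcases nstep_cases j p with ⟨_, r, h1, h2⟩ | ⟨_, _, h2⟩ | ⟨_, _, h2⟩
  · rw [h2]
    have := (posr_some h1).1.1.length_le
    simp; omega
  · rw [h2]; simp
  · rw [h2]; simp

theorem won_mono {j : ℕ} {p q : List Bool} (h : p <+: q) (hw : wonb j p = true) :
    wonb j q = true := by
  rw [wonb_iff] at *
  obtain ⟨x, hx, v, hv, hne⟩ := hw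
  exact ⟨x, le_trans hx h.length_le, v, Phi_mono h hv, hne⟩

theorem nstep_won {j : ℕ} {p : List Bool} (h : NAct j p) : wonb j (nstep j p) = true := by
  rcases nstep_cases j p with ⟨_, r, h1, h2⟩ | ⟨h0, _⟩ | ⟨h0, _⟩
  · rw [h2]
    obtain ⟨_, hx, v, hv, hne⟩ := posr_some h1
    refine won_mono (List.prefix_append r _) (wonb_iff.2 ⟨_, hx, v, hv, hne⟩)
  · exact absurd h h0
  · exact absurd h h0

theorem pstep_cases (e : ℕ) (p : List Bool) (t : ℕ) :
    (pstep e p t = p ++ [false] ∧ (Cb (Lb e p) p.length = true →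
      ∀ n ≤ t, okb e (Lb e p) p n = false)) ∨
    (∃ n, pstep e p t = qn e n (Lb e p) p ∧ Cb (Lb e p) p.length = true ∧
      okb e (Lb e p) p n = true) := by
  cases hc : Cb (Lb e p) p.length with
  | false =>
    left
    refine ⟨?_, fun h => by simp at h⟩
    unfold pstep; rw [hc]; rfl
  | true =>
    cases hb : bsearch (fun n => bif okb e (Lb e p) p n then some (qn e n (Lb e p) p) else none)
      (t + 1) with
    | none =>
      left
      refine ⟨?_, fun _ n hn => ?_⟩
      · unfold pstep; rw [hc, hb]; rfl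
      · have := (bsearch_eq_none.1 hb) n (by omega)
        cases ho : okb e (Lb e p) p n with
        | false => rfl
        | true => rw [ho] at this; simp at this
    | some q =>
      right
      obtain ⟨n, _, h1, _⟩ := bsearch_eq_some.1 hb
      cases ho : okb e (Lb e p) p n with
      | false => rw [ho] at h1; simp at h1
      | true =>
        rw [ho] at h1
        simp only [cond_true, Option.some_inj] at h1
        refine ⟨n, ?_, rfl, ho⟩
        unfold pstep; rw [hc, hb, h1]; rfl

theorem pstep_length (e : ℕ) (p : List Bool) (t : ℕ) : p.length < (pstep e p t).length := by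
  rcases pstep_cases e p t with ⟨h, _⟩ | ⟨n, h, _⟩
  · rw [h]; simp
  · rw [h, qn_length]
    have := le_mk e n (Lb e p) p.length
    omega

theorem pstep_prefix (e : ℕ) (p : List Bool) (t : ℕ) : p <+: pstep e p t := by
  rcases pstep_cases e p t with ⟨h, _⟩ | ⟨n, h, _⟩
  · rw [h]; exact List.prefix_append _ _
  · rw [h]; exact prefix_qn _ _ _ _

/-- stage `t` is devoted to requirement `j` -/
def isN (t j : ℕ) : Prop := t.unpair.1 = j ∧ t.unpair.2.unpair.1 = 0
/-- stage `t` is devoted to coding for `e` -/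
def isP (t e : ℕ) : Prop := t.unpair.1 = e ∧ t.unpair.2.unpair.1 ≠ 0

theorem step_isN {t j : ℕ} (h : isN t j) (p : List Bool) : step t p = nstep j p := by
  unfold step
  rw [h.2, h.1]; rfl

theorem step_isP {t e : ℕ} (h : isP t e) (p : List Bool) : step t p = pstep e p t := by
  unfold step
  rw [eqb_false_iff.2 h.2, h.1]; rfl

theorem stage_cases (t : ℕ) : (∃ j, isN t j) ∨ (∃ e, isP t e) := by
  by_cases h : t.unpair.2.unpair.1 = 0
  · exact Or.inl ⟨_, rfl, h⟩
  · exact Or.inr ⟨_, rfl, h⟩

theorem exists_isN (j s : ℕ) : ∃ t, s ≤ t ∧ isN t j := by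
  refine ⟨Nat.pair j (Nat.pair 0 s), le_trans (Nat.right_le_pair 0 s) (Nat.right_le_pair j _), ?_⟩
  simp [isN]

theorem exists_isP (e s : ℕ) : ∃ t, s ≤ t ∧ isP t e := by
  refine ⟨Nat.pair e (Nat.pair 1 s), le_trans (Nat.right_le_pair 1 s) (Nat.right_le_pair e _), ?_⟩
  simp [isP]

theorem step_length (t : ℕ) (p : List Bool) : p.length < (step t p).length := by
  rcases stage_cases t with ⟨j, h⟩ | ⟨e, h⟩
  · rw [step_isN h]; exact nstep_length j p
  · rw [step_isP h]; exact pstep_length e p t

theorem step_prefix (t : ℕ) (p : List Bool) : p <+: step t p := by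
  rcases stage_cases t with ⟨j, h⟩ | ⟨e, h⟩
  · rw [step_isN h]; exact (nstep_safe_self j p).1
  · rw [step_isP h]; exact pstep_prefix e p t

theorem Dq_prefix {s t : ℕ} (h : s ≤ t) : Dq s <+: Dq t := by
  induction t, h using Nat.le_induction with
  | base => exact List.prefix_rfl
  | succ t _ ih => exact ih.trans (by rw [Dq_succ]; exact step_prefix t _)

theorem Dq_length (t : ℕ) : t ≤ (Dq t).length := by
  induction t with
  | zero => exact Nat.zero_le _
  | succ t ih =>
    have := step_length t (Dq t)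
    rw [Dq_succ]; omega

theorem Dq_length_lt (t : ℕ) : (Dq t).length < (Dq (t + 1)).length := by
  rw [Dq_succ]; exact step_length t _

theorem Dset_eq {c t : ℕ} (h : c < (Dq t).length) : Dset c = bitAt (Dq t) c := by
  unfold Dset
  have h1 : c < (Dq (c + 1)).length := lt_of_lt_of_le (Nat.lt_succ_self c) (Dq_length _)
  rcases le_total t (c + 1) with h2 | h2
  · exact bitAt_of_isPrefix (Dq_prefix h2) h
  · exact (bitAt_of_isPrefix (Dq_prefix h2) h1).symm

/-- initial segment of a set as a string -/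
def seg (A : ℕ → Bool) (m : ℕ) : List Bool := (List.range m).map A

@[simp] theorem seg_length (A : ℕ → Bool) (m : ℕ) : (seg A m).length = m := by simp [seg]

theorem bitAt_seg {A : ℕ → Bool} {m c : ℕ} (h : c < m) : bitAt (seg A m) c = A c := by
  unfold bitAt seg
  simp [h]

theorem seg_prefix (A : ℕ → Bool) {m n : ℕ} (h : m ≤ n) : seg A m <+: seg A n := by
  unfold seg
  rw [List.prefix_iff_eq_take]
  simp [← List.map_take, List.take_range, h]

theorem bitAt_ext {r r' : List Bool} (hl : r.length = r'.length)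
    (h : ∀ c < r.length, bitAt r c = bitAt r' c) : r = r' := by
  apply List.ext_getElem hl
  intro c h1 h2
  have := h c h1
  unfold bitAt at this
  rw [List.getElem?_eq_getElem h1, List.getElem?_eq_getElem h2] at this
  simpa using this

theorem seg_Dq (t : ℕ) : seg Dset (Dq t).length = Dq t := by
  apply bitAt_ext (by simp)
  intro c hc
  rw [seg_length] at hc
  rw [bitAt_seg hc, Dset_eq hc]

theorem seg_prefix_Dq {m t : ℕ} (h : m ≤ (Dq t).length) : seg Dset m <+: Dq t := by
  rw [← seg_Dq t]; exact seg_prefix _ h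

/-! ### injuries -/

/-- the step from `p` to `q` is harmless for requirement `i` -/
def Good (i : ℕ) (p q : List Bool) : Prop :=
  Safe i p q ∨ ((∀ x, beta i p = some x → ¬ V i q x) ∧ Safe i p q.dropLast)

theorem ev_NAct (j : ℕ) : ∀ᶠ t in atTop, isN t j → ¬ NAct j (Dq t) := by
  by_cases h : ∃ t0, isN t0 j ∧ NAct j (Dq t0)
  · obtain ⟨t0, h1, h2⟩ := h
    filter_upwards [eventually_ge_atTop (t0 + 1)] with t ht _ h3
    have h4 : wonb j (Dq (t0 + 1)) = true := by
      rw [Dq_succ, step_isN h1]; exact nstep_won h2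
    have := won_mono (Dq_prefix ht) h4
    rw [h3.1] at this
    simp at this
  · refine Eventually.of_forall fun t h1 h2 => h ⟨t, h1, h2⟩

theorem Lb_lt_of_act {e n : ℕ} {p : List Bool} (h : okb e (Lb e p) p n = true) :
    Lb e p < Lb e (qn e n (Lb e p) p) := by
  have h1 := (okb_iff.1 h).1
  have := Lb_spec (e := e) (qn_bit e n (Lb e p) p) (by simp) (by simpa using h1)
  simpa using this

theorem ev_PAct (e i : ℕ) : ∀ᶠ t in atTop, isP t e → Dq (t + 1) ≠ Dq t ++ [false] →
    i ≤ Lb e (Dq t) := by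
  by_contra hcon
  rw [not_eventually] at hcon
  have key : ∀ k, ∃ s, ∀ t, s ≤ t → k ≤ Lb e (Dq t) := by
    intro k
    induction k with
    | zero => exact ⟨0, fun _ _ => Nat.zero_le _⟩
    | succ k ih =>
      obtain ⟨s, hs⟩ := ih
      obtain ⟨t, ht, h2⟩ := frequently_atTop.1 hcon s
      push Not at h2
      obtain ⟨h3, h4, _⟩ := h2
      refine ⟨t + 1, fun t' ht' => ?_⟩
      have h5 : Lb e (Dq t) < Lb e (Dq (t + 1)) := by
        rw [Dq_succ, step_isP h3] at h4 ⊢
        rcases pstep_cases e (Dq t) t with ⟨h6, _⟩ | ⟨n, h6, _, h7⟩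
        · exact absurd h6 h4
        · rw [h6]; exact Lb_lt_of_act h7
      have h6 := Lb_mono (e := e) (Dq_prefix ht')
      have h7 := hs t ht
      omega
  obtain ⟨s, hs⟩ := key i
  obtain ⟨t, ht, h2⟩ := frequently_atTop.1 hcon s
  push Not at h2
  have := hs t ht
  omega

theorem good_ev (i : ℕ) : ∀ᶠ t in atTop, Good i (Dq t) (Dq (t + 1)) := by
  have h1 : ∀ᶠ t in atTop, ∀ j ∈ Finset.range i, isN t j → ¬ NAct j (Dq t) :=
    (eventually_all_finset _).2 fun j _ => ev_NAct j
  have h2 : ∀ᶠ t in atTop, ∀ e ∈ Finset.range i, isP t e → Dq (t + 1) ≠ Dq t ++ [false] →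
      i ≤ Lb e (Dq t) :=
    (eventually_all_finset _).2 fun e _ => ev_PAct e i
  filter_upwards [h1, h2] with t ht1 ht2
  rcases stage_cases t with ⟨j, h⟩ | ⟨e, h⟩
  · left
    rw [Dq_succ, step_isN h]
    by_cases hji : j < i
    · exact nstep_safe_of_not_act (ht1 j (Finset.mem_range.2 hji) h) i
    · exact (nstep_safe_self j _).mono (by omega)
  · rcases pstep_cases e (Dq t) t with ⟨h6, _⟩ | ⟨n, h6, _, h7⟩
    · left
      rw [Dq_succ, step_isP h, h6]; exact snoc_safe _ _
    · by_cases hei : i ≤ e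
      · left
        rw [Dq_succ, step_isP h, h6]
        exact qn_safe (Or.inl hei)
      · right
        have h8 : Dq (t + 1) ≠ Dq t ++ [false] := by
          rw [Dq_succ, step_isP h, h6]
          unfold qn
          intro h9
          have := List.append_inj_right' h9 (by simp)
          simp at this
        have h9 := ht2 e (Finset.mem_range.2 (by omega)) h h8
        have h10 := (okb_iff.1 h7).2 i h9 (by omega)
        rw [Dq_succ, step_isP h, h6]
        refine ⟨respb_iff.1 h10, ?_⟩
        rw [qn_dropLast]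
        exact Safe.zeros _ _ _

theorem Good.not_V {i x : ℕ} {p q : List Bool} (h : Good i p q) (hb : beta i p = some x) :
    ¬ V i q x := by
  rcases h with h | h
  · intro hv
    exact (beta_some hb).2 (V_mono h hv)
  · exact h.1 x hb

theorem beta_stable (i : ℕ) : ∃ b, ∀ᶠ t in atTop, beta i (Dq t) = b := by
  classical
  obtain ⟨s, hs⟩ := eventually_atTop.1 (good_ev i)
  by_cases hex : ∃ x, ∃ t, s ≤ t ∧ beta i (Dq t) = some x
  · obtain ⟨t, ht, hx⟩ := Nat.find_spec hex
    refine ⟨some (Nat.find hex), eventually_atTop.2 ⟨t, fun t' ht' => ?_⟩⟩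
    induction t', ht' using Nat.le_induction with
    | base => exact hx
    | succ t' ht' ih =>
      have h1 := (hs t' (le_trans ht ht')).not_V ih
      have h2 := (beta_some ih).1
      have h3 := Dq_length_lt t'
      obtain ⟨y, hy1, hy2⟩ := beta_of_not_V (by omega) h1
      have h4 : Nat.find hex ≤ y := Nat.find_min' hex ⟨t' + 1, by omega, hy2⟩
      have : y = Nat.find hex := le_antisymm hy1 h4
      rw [hy2, this]
  · refine ⟨none, eventually_atTop.2 ⟨s, fun t ht => ?_⟩⟩
    cases h : beta i (Dq t) with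
    | none => rfl
    | some x => exact absurd ⟨x, t, ht, h⟩ hex

/-- no functional computes the universal set from the constructed set -/
theorem not_compute (i : ℕ) : ¬ ∀ x, ∃ m, Phi i (seg Dset m) x = some (kap x) := by
  intro H
  have hval : ∀ t x v, Phi i (Dq t) x = some v → v = kap x := by
    intro t x v hv
    obtain ⟨m, hm⟩ := H x
    rw [← seg_Dq t] at hv
    rcases le_total m (Dq t).length with h | h
    · have := Phi_mono (seg_prefix Dset h) hm
      rw [this] at hv
      exact (Option.some_inj.1 hv).symm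
    · have := Phi_mono (seg_prefix Dset h) hv
      rw [this] at hm
      exact Option.some_inj.1 hm
  have hwon : ∀ t, wonb i (Dq t) = false := by
    intro t
    by_contra h
    simp only [Bool.not_eq_false] at h
    obtain ⟨x, _, v, hv, hne⟩ := wonb_iff.1 h
    exact hne (hval t x v hv)
  obtain ⟨b, hb⟩ := beta_stable i
  obtain ⟨s, hs⟩ := eventually_atTop.1 (hb.and (good_ev i))
  cases b with
  | some x =>
    obtain ⟨m, hm⟩ := H x
    have h1 := (hs (max s m) (le_max_left _ _)).1
    apply (beta_some h1).2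
    refine ⟨_, Safe.refl i _, ?_⟩
    have h2 : m ≤ (Dq (max s m)).length := le_trans (le_max_right _ _) (Dq_length _)
    rw [Phi_mono (seg_prefix_Dq h2) hm]
    rfl
  | none =>
    obtain ⟨t, ht, hN⟩ := exists_isN i s
    rcases nstep_cases i (Dq t) with ⟨_, r, h1, h2⟩ | ⟨_, h2, _⟩ | ⟨_, h1, h2⟩
    · obtain ⟨_, _, v, hv, hne⟩ := posr_some h1
      apply hne
      apply hval (t + 1)
      rw [Dq_succ, step_isN hN, h2]
      exact Phi_mono (List.prefix_append _ _) hv
    · rw [hwon t] at h2; simp at h2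
    · have h3 : ¬ V i (Dq (t + 1)) (nx i (Dq t)) := by
        intro hv
        apply h1
        refine V_mono ?_ hv
        rw [Dq_succ, step_isN hN, h2]
        exact Safe.zeros _ _ _
      have h4 : nx i (Dq t) ≤ (Dq (t + 1)).length := by
        rw [Dq_succ, step_isN hN, h2]
        simp
        omega
      obtain ⟨y, _, hy⟩ := beta_of_not_V h4 h3
      have h5 := (hs (t + 1) (by omega)).1
      rw [hy] at h5
      simp at h5

/-! ### the coding requirements -/

/-- position `c` is decided at some stage -/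
theorem exists_stage {s c : ℕ} (h : (Dq s).length ≤ c) :
    ∃ t, s ≤ t ∧ (Dq t).length ≤ c ∧ c < (Dq (t + 1)).length := by
  classical
  have hex : ∃ t, c < (Dq (s + t)).length := ⟨c + 1, by
    have := Dq_length (s + (c + 1)); omega⟩
  have h1 := Nat.find_spec hex
  have h2 : Nat.find hex ≠ 0 := by
    intro h3
    rw [h3] at h1
    simp only [Nat.add_zero] at h1
    omega
  obtain ⟨k, hk⟩ := Nat.exists_eq_succ_of_ne_zero h2
  have h3 := Nat.find_min hex (m := k) (by omega)
  refine ⟨s + k, by omega, by omega, ?_⟩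
  rw [hk] at h1
  exact h1

/-- all but finitely many markers for `e` are correct or refuted -/
theorem marker_good (e : ℕ) : ∃ m0, ∀ c, m0 ≤ c → Dset c = true → mE c = e →
    ¬ W e (mN c) → Cb (mL c) (mS c) = true := by
  have h1 : ∀ᶠ t in atTop, ∀ j ∈ Finset.range (e + 1), isN t j → ¬ NAct j (Dq t) :=
    (eventually_all_finset _).2 fun j _ => ev_NAct j
  obtain ⟨s, hs⟩ := eventually_atTop.1 h1
  refine ⟨(Dq s).length, fun c hc hD he hW => ?_⟩
  obtain ⟨t, ht, hc1, hc2⟩ := exists_stage hc
  have hb : bitAt (Dq (t + 1)) c = true := by rw [← Dset_eq hc2]; exact hD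
  rcases stage_cases t with ⟨j, h⟩ | ⟨e', h⟩
  · exfalso
    rw [Dq_succ, step_isN h] at hb
    apply hW
    have hsafe : Safe (e + 1) (Dq t) (nstep j (Dq t)) := by
      by_cases hj : j < e + 1
      · exact nstep_safe_of_not_act (hs t ht j (Finset.mem_range.2 hj) h) _
      · exact (nstep_safe_self j _).mono (by omega)
    have := hsafe.2 c hc1 hb (by omega)
    rw [he] at this
    exact this
  · rw [Dq_succ, step_isP h] at hb
    rcases pstep_cases e' (Dq t) t with ⟨h6, _⟩ | ⟨n, h6, h7, _⟩
    · exfalso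
      rw [h6] at hb
      apply hW
      have := (snoc_safe (e + 1) (Dq t)).2 c hc1 hb (by omega)
      rw [he] at this
      exact this
    · rw [h6] at hb
      have := qn_bit_eq hc1 hb
      subst this
      simp only [mL_mk, mS_mk]
      exact h7

/-- stuck case: the complement of `W e` is r.e. in the constructed set -/
theorem stuck {e k : ℕ} (hk : ∀ t, Lb e (Dq t) < k) :
    ∃ (l m0 : ℕ) (X : ℕ → Option ℕ), ∀ n, ¬ W e n ↔
      ∃ m, m0 ≤ m ∧ ∃ i, e < i ∧ i ≤ l ∧ ∃ x, X i = some x ∧ V i (qn e n l (seg Dset m)) x := by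
  classical
  -- the coding length stabilises
  have hL : ∃ l s, ∀ t, s ≤ t → Lb e (Dq t) = l := by
    have hex : ∃ d, ∃ t, Lb e (Dq t) + d = k := ⟨k - Lb e (Dq 0), 0, by have := hk 0; omega⟩
    obtain ⟨t, ht⟩ := Nat.find_spec hex
    refine ⟨Lb e (Dq t), t, fun t' ht' => ?_⟩
    have h1 := Lb_mono (e := e) (Dq_prefix ht')
    by_contra hne
    have h2 := hk t'
    have := Nat.find_min' hex ⟨t', by
      show Lb e (Dq t') + (k - Lb e (Dq t')) = k
      omega⟩
    omega
  obtain ⟨l, s1, hs1⟩ := hL
  choose X hX using beta_stable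
  have h2 : ∀ᶠ t in atTop, ∀ i ∈ Finset.range (l + 1), beta i (Dq t) = X i ∧
      Good i (Dq t) (Dq (t + 1)) :=
    (eventually_all_finset _).2 fun i _ => (hX i).and (good_ev i)
  obtain ⟨s2, hs2⟩ := eventually_atTop.1 h2
  obtain ⟨s3, hs3⟩ := Cb_eventually l
  set s := max s1 (max s2 s3) with hsdef
  have e1 : s1 ≤ s := le_max_left _ _
  have e2 : s2 ≤ s := le_trans (le_max_left _ _) (le_max_right _ _)
  have e3 : s3 ≤ s := le_trans (le_max_right _ _) (le_max_right _ _)
  refine ⟨l, (Dq s).length, X, fun n => ⟨fun hn => ?_, ?_⟩⟩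
  · obtain ⟨t, ht, hP⟩ := exists_isP e (max s n)
    have ht1 : s ≤ t := le_trans (le_max_left _ _) ht
    have ht2 : n ≤ t := le_trans (le_max_right _ _) ht
    have hLt : Lb e (Dq t) = l := hs1 t (le_trans e1 ht1)
    have hC : Cb (Lb e (Dq t)) (Dq t).length = true := by
      rw [hLt]
      exact hs3 _ (le_trans e3 (le_trans ht1 (Dq_length t)))
    rcases pstep_cases e (Dq t) t with ⟨_, h6⟩ | ⟨n', h6, _, h7⟩
    · have h8 := h6 hC n ht2
      rw [hLt] at h8
      have h9 : ¬ (okb e l (Dq t) n = true) := by rw [h8]; simp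
      rw [okb_iff] at h9
      push Not at h9
      obtain ⟨i, hi1, hi2, hi3⟩ := h9 hn
      rw [ne_eq, respb_iff] at hi3
      push Not at hi3
      obtain ⟨x, hx1, hx2⟩ := hi3
      refine ⟨(Dq t).length, (Dq_prefix ht1).length_le, i, hi2, hi1, x, ?_, ?_⟩
      · rw [← (hs2 t (le_trans e2 ht1) i (Finset.mem_range.2 (by omega))).1]
        exact hx1
      · rw [seg_Dq]; exact hx2
    · exfalso
      have h8 := Lb_lt_of_act h7
      rw [← h6, ← step_isP hP, ← Dq_succ, hLt, hs1 (t + 1) (by omega)] at h8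
      exact lt_irrefl _ h8
  · rintro ⟨m, hm, i, hi1, hi2, x, hx, hV⟩ hW
    have hV1 : V i (seg Dset m) x := V_mono (qn_safe (Or.inr hW)) hV
    obtain ⟨t, ht, hc1, hc2⟩ := exists_stage hm
    obtain ⟨hb, hg⟩ := hs2 t (le_trans e2 ht) i (Finset.mem_range.2 (by omega))
    rw [hx] at hb
    have hp1 : Dq t <+: seg Dset m := by
      rw [← seg_Dq t]; exact seg_prefix _ hc1
    have hsafe : Safe i (Dq t) (seg Dset m) := by
      rcases hg with hg | hg
      · exact hg.left hp1 (seg_prefix_Dq (le_of_lt hc2))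
      · refine hg.2.left hp1 ?_
        have h3 : seg Dset m <+: Dq (t + 1) := seg_prefix_Dq (le_of_lt hc2)
        have h4 : (Dq (t + 1)).dropLast <+: Dq (t + 1) := List.dropLast_prefix _
        refine List.prefix_of_prefix_length_le h3 h4 ?_
        rw [List.length_dropLast, seg_length]
        omega
    exact (beta_some hb).2 (V_mono hsafe hV1)

end Pool.Agent.Helper17.DS
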