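import Pool.Agent.Helper17.DS4

/-!
Turing reducibility: use principle, search lemma, and the two-valued join theorem.
-/

set_option autoImplicit false

namespace Pool.Agent.Helper17.DS

open Nat.Partrec (Code)

/-- characteristic function as an oracle -/
def chi (A : ℕ → Bool) : ℕ →. ℕ := fun n => Part.some (bif A n then 1 else 0)

/-- use principle -/
theorem use_principle {A : ℕ → Bool} {f : ℕ →. ℕ} (hf : Nat.RecursiveIn {chi A} f) :
    ∃ F : List Bool → ℕ →. ℕ, Partrec₂ F ∧
      (∀ s t x v, s <+: t → v ∈ F s x → v ∈ F t x) ∧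
      (∀ x v, v ∈ f x ↔ ∃ m, v ∈ F (seg A m) x) := by
  induction hf with
  | zero =>
    refine ⟨fun _ _ => Part.some 0, ?_, fun _ _ _ _ _ h => h, fun x v => ?_⟩
    · exact (Computable.const 0).partrec
    · constructor
      · intro h; exact ⟨0, h⟩
      · rintro ⟨_, h⟩; exact h
  | succ =>
    refine ⟨fun _ x => Part.some (Nat.succ x), ?_, fun _ _ _ _ _ h => h, fun x v => ?_⟩
    · exact (Computable.succ.comp Computable.snd).partrec
    · constructor
      · intro h; exact ⟨0, h⟩
      · rintro ⟨_, h⟩; exact h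
  | left =>
    refine ⟨fun _ x => Part.some x.unpair.1, ?_, fun _ _ _ _ _ h => h, fun x v => ?_⟩
    · exact (Computable.fst.comp (Computable.unpair.comp Computable.snd)).partrec
    · constructor
      · intro h; exact ⟨0, h⟩
      · rintro ⟨_, h⟩; exact h
  | right =>
    refine ⟨fun _ x => Part.some x.unpair.2, ?_, fun _ _ _ _ _ h => h, fun x v => ?_⟩
    · exact (Computable.snd.comp (Computable.unpair.comp Computable.snd)).partrec
    · constructor
      · intro h; exact ⟨0, h⟩
      · rintro ⟨_, h⟩; exact h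
  | oracle g hg =>
    rw [Set.mem_singleton_iff] at hg
    subst hg
    refine ⟨fun s x => ((s[x]?).map (fun b : Bool => bif b then 1 else 0) : Option ℕ), ?_, ?_,
      fun x v => ?_⟩
    · exact Computable.ofOption (f := fun p : List Bool × ℕ =>
        (p.1[p.2]?).map (fun b : Bool => bif b then 1 else 0)) (by fun_prop)
    · intro s t x v hst hv
      simp only [Part.mem_coe, Option.mem_def, Option.map_eq_some_iff] at hv ⊢
      obtain ⟨b, hb, hb2⟩ := hv
      refine ⟨b, ?_, hb2⟩
      obtain ⟨r, rfl⟩ := hst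
      have hx : x < s.length := by
        by_contra hx
        rw [List.getElem?_eq_none (by omega)] at hb
        simp at hb
      rw [List.getElem?_append_left hx]
      exact hb
    · simp only [Part.mem_coe, Option.mem_def, Option.map_eq_some_iff, chi, Part.mem_some_iff]
      constructor
      · intro h
        refine ⟨x + 1, A x, ?_, h.symm⟩
        simp [seg]
      · rintro ⟨m, b, hb, hb2⟩
        have hx : x < m := by
          by_contra hx
          rw [List.getElem?_eq_none (by rw [seg_length]; omega)] at hb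
          simp at hb
        have : (seg A m)[x]? = some (A x) := by simp [seg, hx]
        rw [this, Option.some_inj] at hb
        rw [← hb2, hb]
  | @pair f1 f2 _ _ ih1 ih2 =>
    obtain ⟨F1, hp1, hm1, hl1⟩ := ih1
    obtain ⟨F2, hp2, hm2, hl2⟩ := ih2
    refine ⟨fun s x => (F1 s x).bind fun a => (F2 s x).map fun b => Nat.pair a b, ?_, ?_,
      fun x v => ?_⟩
    · have h2 : Partrec₂ (fun (p : List Bool × ℕ) (a : ℕ) =>
          (F2 p.1 p.2).map fun b => Nat.pair a b) := by
        refine Partrec.map (f := fun q : (List Bool × ℕ) × ℕ => F2 q.1.1 q.1.2)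
          (g := fun q b => Nat.pair q.2 b) ?_ ?_
        · exact hp2.comp (Computable.fst.comp Computable.fst) (Computable.snd.comp Computable.fst)
        · have : Computable (fun p : ((List Bool × ℕ) × ℕ) × ℕ => Nat.pair p.1.2 p.2) := by
            fun_prop
          exact this
      exact Partrec.bind hp1 h2
    · intro s t x v hst hv
      simp only [Part.mem_bind_iff, Part.mem_map_iff] at hv ⊢
      obtain ⟨a, ha, b, hb, hab⟩ := hv
      exact ⟨a, hm1 s t x a hst ha, b, hm2 s t x b hst hb, hab⟩
    · simp only [Part.mem_bind_iff, Part.mem_map_iff, Seq.seq, Part.map_eq_map, Part.bind_eq_bind,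
        exists_exists_and_eq_and]
      constructor
      · rintro ⟨a, ha, b, hb, hab⟩
        obtain ⟨m1, h1⟩ := (hl1 x a).1 ha
        obtain ⟨m2, h2⟩ := (hl2 x b).1 hb
        exact ⟨max m1 m2, a, hm1 _ _ _ _ (seg_prefix A (le_max_left _ _)) h1, b,
          hm2 _ _ _ _ (seg_prefix A (le_max_right _ _)) h2, hab⟩
      · rintro ⟨m, a, ha, b, hb, hab⟩
        exact ⟨a, (hl1 x a).2 ⟨m, ha⟩, b, (hl2 x b).2 ⟨m, hb⟩, hab⟩
  | @comp f1 f2 _ _ ih1 ih2 =>
    obtain ⟨F1, hp1, hm1, hl1⟩ := ih1
    obtain ⟨F2, hp2, hm2, hl2⟩ := ih2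
    refine ⟨fun s x => (F2 s x).bind fun a => F1 s a, ?_, ?_, fun x v => ?_⟩
    · have h2 : Partrec₂ (fun (p : List Bool × ℕ) (a : ℕ) => F1 p.1 a) :=
        hp1.comp (Computable.fst.comp Computable.fst) Computable.snd
      exact Partrec.bind hp2 h2
    · intro s t x v hst hv
      simp only [Part.mem_bind_iff] at hv ⊢
      obtain ⟨a, ha, hb⟩ := hv
      exact ⟨a, hm2 s t x a hst ha, hm1 s t a v hst hb⟩
    · simp only [Part.mem_bind_iff, Part.bind_eq_bind]
      constructor
      · rintro ⟨a, ha, hb⟩
        obtain ⟨m2, h2⟩ := (hl2 x a).1 ha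
        obtain ⟨m1, h1⟩ := (hl1 a v).1 hb
        exact ⟨max m1 m2, a, hm2 _ _ _ _ (seg_prefix A (le_max_right _ _)) h2,
          hm1 _ _ _ _ (seg_prefix A (le_max_left _ _)) h1⟩
      · rintro ⟨m, a, ha, hb⟩
        exact ⟨a, (hl2 x a).2 ⟨m, ha⟩, (hl1 a v).2 ⟨m, hb⟩⟩
  | @prec f1 f2 _ _ ih1 ih2 =>
    obtain ⟨F1, hp1, hm1, hl1⟩ := ih1
    obtain ⟨F2, hp2, hm2, hl2⟩ := ih2
    have hmono : ∀ (s t : List Bool) (a n v : ℕ), s <+: t →
        v ∈ (Nat.rec (F1 s a) (fun y IH => IH.bind fun i => F2 s (Nat.pair a (Nat.pair y i)))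
          n : Part ℕ) →
        v ∈ (Nat.rec (F1 t a) (fun y IH => IH.bind fun i => F2 t (Nat.pair a (Nat.pair y i)))
          n : Part ℕ) := by
      intro s t a n v hst
      induction n generalizing v with
      | zero => exact hm1 s t a v hst
      | succ n ih =>
        intro hv
        simp only [Part.mem_bind_iff] at hv ⊢
        obtain ⟨i, hi, hv⟩ := hv
        exact ⟨i, ih i hi, hm2 s t _ v hst hv⟩
    refine ⟨fun s x => (Nat.rec (F1 s x.unpair.1)
      (fun y IH => IH.bind fun i => F2 s (Nat.pair x.unpair.1 (Nat.pair y i)))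
      x.unpair.2 : Part ℕ), ?_, fun s t x v hst => hmono s t _ _ v hst, fun x v => ?_⟩
    · refine Partrec.nat_rec (f := fun p : List Bool × ℕ => p.2.unpair.2)
        (g := fun p => F1 p.1 p.2.unpair.1)
        (h := fun p q => F2 p.1 (Nat.pair p.2.unpair.1 (Nat.pair q.1 q.2))) ?_ ?_ ?_
      · fun_prop
      · exact hp1.comp Computable.fst
          (by fun_prop : Computable (fun p : List Bool × ℕ => p.2.unpair.1))
      · exact hp2.comp
          (by fun_prop : Computable (fun p : (List Bool × ℕ) × (ℕ × ℕ) => p.1.1))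
          (by fun_prop : Computable (fun p : (List Bool × ℕ) × (ℕ × ℕ) =>
            Nat.pair p.1.2.unpair.1 (Nat.pair p.2.1 p.2.2)))
    · simp only [Part.bind_eq_bind]
      generalize x.unpair.1 = a
      generalize x.unpair.2 = n
      induction n generalizing v with
      | zero => exact hl1 a v
      | succ n ih =>
        simp only [Part.mem_bind_iff]
        constructor
        · rintro ⟨i, hi, hv⟩
          obtain ⟨m1, h1⟩ := (ih i).1 hi
          obtain ⟨m2, h2⟩ := (hl2 _ v).1 hv
          refine ⟨max m1 m2, i, ?_, hm2 _ _ _ _ (seg_prefix A (le_max_right _ _)) h2⟩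
          exact hmono _ _ a n i (seg_prefix A (le_max_left _ _)) h1
        · rintro ⟨m, i, hi, hv⟩
          exact ⟨i, (ih i).2 ⟨m, hi⟩, (hl2 _ v).2 ⟨m, hv⟩⟩
  | @rfind f1 _ ih1 =>
    obtain ⟨F1, hp1, hm1, hl1⟩ := ih1
    have hmono : ∀ s t a v, s <+: t →
        v ∈ (Nat.rfind fun n => (F1 s (Nat.pair a n)).map fun m => decide (m = 0)) →
        v ∈ (Nat.rfind fun n => (F1 t (Nat.pair a n)).map fun m => decide (m = 0)) := by
      intro s t a v hst hv
      rw [Nat.mem_rfind] at hv ⊢
      obtain ⟨h1, h2⟩ := hv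
      refine ⟨?_, fun {m} hm => ?_⟩
      · rw [Part.mem_map_iff] at h1 ⊢
        obtain ⟨w, hw, hw2⟩ := h1
        exact ⟨w, hm1 s t _ w hst hw, hw2⟩
      · have := h2 hm
        rw [Part.mem_map_iff] at this ⊢
        obtain ⟨w, hw, hw2⟩ := this
        exact ⟨w, hm1 s t _ w hst hw, hw2⟩
    refine ⟨fun s a => Nat.rfind fun n => (F1 s (Nat.pair a n)).map fun m => decide (m = 0),
      ?_, ?_, fun x v => ?_⟩
    · refine Partrec.rfind (p := fun (q : List Bool × ℕ) n =>
        (F1 q.1 (Nat.pair q.2 n)).map fun m => decide (m = 0)) ?_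
      refine Partrec.map (f := fun q : (List Bool × ℕ) × ℕ => F1 q.1.1 (Nat.pair q.1.2 q.2))
        (g := fun _ m => decide (m = 0)) ?_ ?_
      · exact hp1.comp
          (by fun_prop : Computable (fun p : (List Bool × ℕ) × ℕ => p.1.1))
          (by fun_prop : Computable (fun p : (List Bool × ℕ) × ℕ => Nat.pair p.1.2 p.2))
      · have : Computable (fun p : ((List Bool × ℕ) × ℕ) × ℕ => decide (p.2 = 0)) :=
          (Primrec.eq.decide.to_comp).comp Computable.snd (Computable.const 0)
        exact this
    · exact fun s t x v hst hv => hmono s t x v hst hv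
    · constructor
      · intro hv
        have hv' : v ∈ (Nat.rfind fun n => (f1 (Nat.pair x n)).map fun m => decide (m = 0)) := hv
        rw [Nat.mem_rfind] at hv'
        obtain ⟨h1, h2⟩ := hv'
        have hb : ∃ M, ∀ n < v, ∃ w, w ∈ F1 (seg A M) (Nat.pair x n) ∧ decide (w = 0) = false := by
          have : ∀ N ≤ v, ∃ M, ∀ n < N, ∃ w, w ∈ F1 (seg A M) (Nat.pair x n) ∧
              decide (w = 0) = false := by
            intro N
            induction N with
            | zero => intro _; exact ⟨0, fun n hn => absurd hn (Nat.not_lt_zero _)⟩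
            | succ N ih =>
              intro hN
              obtain ⟨M, hM⟩ := ih (by omega)
              have h3 := h2 (show N < v by omega)
              rw [Part.mem_map_iff] at h3
              obtain ⟨w, hw, hw2⟩ := h3
              obtain ⟨M2, hM2⟩ := (hl1 _ _).1 hw
              refine ⟨max M M2, fun n hn => ?_⟩
              rcases Nat.lt_succ_iff_lt_or_eq.1 hn with h | h
              · obtain ⟨w', hw', hw2'⟩ := hM n h
                exact ⟨w', hm1 _ _ _ _ (seg_prefix A (le_max_left _ _)) hw', hw2'⟩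
              · subst h
                exact ⟨w, hm1 _ _ _ _ (seg_prefix A (le_max_right _ _)) hM2, hw2⟩
          exact this v le_rfl
        obtain ⟨M, hM⟩ := hb
        rw [Part.mem_map_iff] at h1
        obtain ⟨w, hw, hw2⟩ := h1
        obtain ⟨M2, hM2⟩ := (hl1 _ _).1 hw
        refine ⟨max M M2, ?_⟩
        rw [Nat.mem_rfind]
        refine ⟨?_, fun {n} hn => ?_⟩
        · rw [Part.mem_map_iff]
          exact ⟨w, hm1 _ _ _ _ (seg_prefix A (le_max_right _ _)) hM2, hw2⟩
        · rw [Part.mem_map_iff]
          obtain ⟨w', hw', hw2'⟩ := hM n hn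
          exact ⟨w', hm1 _ _ _ _ (seg_prefix A (le_max_left _ _)) hw', hw2'⟩
      · rintro ⟨M, hM⟩
        show v ∈ (Nat.rfind fun n => (f1 (Nat.pair x n)).map fun m => decide (m = 0))
        rw [Nat.mem_rfind] at hM ⊢
        obtain ⟨h1, h2⟩ := hM
        refine ⟨?_, fun {n} hn => ?_⟩
        · rw [Part.mem_map_iff] at h1 ⊢
          obtain ⟨w, hw, hw2⟩ := h1
          exact ⟨w, (hl1 _ _).2 ⟨M, hw⟩, hw2⟩
        · have := h2 hn
          rw [Part.mem_map_iff] at this ⊢
          obtain ⟨w, hw, hw2⟩ := this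
          exact ⟨w, (hl1 _ _).2 ⟨M, hw⟩, hw2⟩

/-- the universal set is not computable from the constructed set -/
theorem K_not_le_D : ¬ Nat.RecursiveIn {chi Dset} (chi kb) := by
  intro h
  obtain ⟨F, hF, _, hl⟩ := use_principle h
  obtain ⟨c, hc1, hc2⟩ := exists_Phi hF
  apply not_compute c
  intro x
  have hkap : kap x ∈ chi kb x := by
    unfold chi kap
    exact Part.mem_some _
  obtain ⟨m, hm⟩ := (hl x (kap x)).1 hkap
  obtain ⟨N, hN⟩ := hc2 _ _ _ hm
  have h1 := hN (seg Dset (max m N)) (seg_prefix _ (le_max_left _ _))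
    (by rw [seg_length]; exact le_max_right _ _)
  obtain ⟨v, hv⟩ := Option.isSome_iff_exists.1 h1
  obtain ⟨m', hm'⟩ := hc1 _ _ _ hv
  have hseg : (seg Dset (max m N)).take m' = seg Dset (min m' (max m N)) := by
    unfold seg
    rw [← List.map_take, List.take_range]
  rw [hseg] at hm'
  have h3 : v ∈ chi kb x := (hl x v).2 ⟨_, hm'⟩
  refine ⟨max m N, ?_⟩
  rw [hv]
  have h4 := Part.mem_unique h3 hkap
  rw [h4]

/-! ### search lemma -/

theorem rec_search {O : Set (ℕ →. ℕ)} {info : ℕ → ℕ}
    (hinfo : Nat.RecursiveIn O (fun n => Part.some (info n))) {T : ℕ → ℕ → Option ℕ}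
    (hT : Computable (fun p : ℕ × ℕ => T p.1 p.2)) {h : ℕ → ℕ}
    (sound : ∀ m x v, T (info m) x = some v → v = h x)
    (compl : ∀ x, ∃ m, (T (info m) x).isSome = true) :
    Nat.RecursiveIn O (fun x => Part.some (h x)) := by
  have hg0 : Nat.RecursiveIn O (fun q => Part.some
      (bif (T q.unpair.1 q.unpair.2).isSome then 0 else 1)) := by
    apply Nat.Partrec.recursiveIn
    rw [← Partrec.nat_iff]
    have : Computable (fun q : ℕ => (bif (T q.unpair.1 q.unpair.2).isSome then 0 else 1)) := by
      refine ccond (cisSome (hT.comp ?_)) (Computable.const 0) (Computable.const 1)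
      fun_prop
    exact this.partrec
  have hg1 : Nat.RecursiveIn O (fun q => Part.some
      ((T q.unpair.1 q.unpair.2).getD 0)) := by
    apply Nat.Partrec.recursiveIn
    rw [← Partrec.nat_iff]
    have : Computable (fun q : ℕ => (T q.unpair.1 q.unpair.2).getD 0) := by
      refine cgetD (hT.comp ?_) (Computable.const 0)
      fun_prop
    exact this.partrec
  have hid : Nat.RecursiveIn O (fun n => Part.some n) := Nat.Partrec.recursiveIn Nat.Partrec.some
  have hf1 : Nat.RecursiveIn O (fun p => Part.some
      (bif (T (info p.unpair.2) p.unpair.1).isSome then 0 else 1)) := by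
    refine (hg0.comp ((hinfo.comp Nat.RecursiveIn.right).pair Nat.RecursiveIn.left)).of_eq ?_
    intro n
    simp [Seq.seq]
  have hr := hf1.rfind
  have hfin := hg1.comp ((hinfo.comp hr).pair hid)
  refine hfin.of_eq fun x => ?_
  obtain ⟨m, hm⟩ := compl x
  have hdom : ∃ n, n ∈ (Nat.rfind fun n => (fun m => decide (m = 0)) <$>
      (Part.some (bif (T (info (Nat.pair x n).unpair.2) (Nat.pair x n).unpair.1).isSome
        then 0 else 1))) := by
    rw [← Part.dom_iff_mem]
    rw [Nat.rfind_dom]
    refine ⟨m, ?_, fun {k} _ => ?_⟩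
    · simp [hm]
    · trivial
  obtain ⟨n, hn⟩ := hdom
  have hn2 : (T (info n) x).isSome = true := by
    have := Nat.rfind_spec hn
    simp only [Nat.unpair_pair, Part.map_eq_map, Part.map_some, Part.mem_some_iff] at this
    cases hT2 : (T (info n) x).isSome with
    | true => rfl
    | false => rw [hT2] at this; simp at this
  obtain ⟨v, hv⟩ := Option.isSome_iff_exists.1 hn2
  have hv2 := sound _ _ _ hv
  have hn3 := Part.eq_some_iff.2 hn
  simp only [Part.bind_eq_bind, Part.map_eq_map, Seq.seq]
  simp only [Part.map_eq_map] at hn3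
  rw [hn3]
  simp [hv, hv2]

theorem seg_succ (A : ℕ → Bool) (m : ℕ) : seg A (m + 1) = seg A m ++ [A m] := by
  unfold seg
  rw [List.range_succ, List.map_append]
  rfl

theorem seg_rec {O : Set (ℕ →. ℕ)} {A : ℕ → Bool} (hA : Nat.RecursiveIn O (chi A)) :
    Nat.RecursiveIn O (fun m => Part.some (Encodable.encode (seg A m))) := by
  have hg2 : Nat.RecursiveIn O (fun q => Part.some (Encodable.encode
      (((Encodable.decode q.unpair.1 : Option (List Bool)).getD []) ++ [eqb q.unpair.2 1]))) := by
    apply Nat.Partrec.recursiveIn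
    rw [← Partrec.nat_iff]
    have : Computable (fun q : ℕ => Encodable.encode
      (((Encodable.decode q.unpair.1 : Option (List Bool)).getD []) ++ [eqb q.unpair.2 1])) := by
      refine cencode (capp (cgetD (cdecode (by fun_prop)) (Computable.const [])) ?_)
      fun_prop
    exact this.partrec
  have hf : Nat.RecursiveIn O (fun _ => Part.some (Encodable.encode ([] : List Bool))) := by
    apply Nat.Partrec.recursiveIn
    rw [← Partrec.nat_iff]
    exact (Computable.const _).partrec
  have hi : Nat.RecursiveIn O (fun p => Part.some p.unpair.2.unpair.2) := by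
    apply Nat.Partrec.recursiveIn
    rw [← Partrec.nat_iff]
    exact (by fun_prop : Computable (fun p : ℕ => p.unpair.2.unpair.2)).partrec
  have hy : Nat.RecursiveIn O (fun p => Part.some p.unpair.2.unpair.1) := by
    apply Nat.Partrec.recursiveIn
    rw [← Partrec.nat_iff]
    exact (by fun_prop : Computable (fun p : ℕ => p.unpair.2.unpair.1)).partrec
  have hh := hg2.comp (hi.pair (hA.comp hy))
  have hpr := hf.prec hh
  have hzid : Nat.RecursiveIn O (fun n => Part.some (Nat.pair 0 n)) := by
    apply Nat.Partrec.recursiveIn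
    rw [← Partrec.nat_iff]
    exact (by fun_prop : Computable (fun p : ℕ => Nat.pair 0 p)).partrec
  refine (hpr.comp hzid).of_eq fun m => ?_
  simp only [Part.bind_eq_bind, Part.bind_some, Nat.unpair_pair]
  induction m with
  | zero => rfl
  | succ m ih =>
    simp only [] at ih ⊢
    rw [ih]
    simp only [Part.bind_some, Seq.seq, Part.map_eq_map, Part.map_some, chi, Nat.unpair_pair,
      Encodable.encodek, Option.getD_some]
    rw [seg_succ]
    have : eqb (bif A m then 1 else 0) 1 = A m := by cases A m <;> rfl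
    rw [this]

theorem red1 {O : Set (ℕ →. ℕ)} {A : ℕ → Bool} (hA : Nat.RecursiveIn O (chi A))
    {T : List Bool → ℕ → Option ℕ} (hT : Computable (fun p : List Bool × ℕ => T p.1 p.2))
    {h : ℕ → ℕ} (sound : ∀ m x v, T (seg A m) x = some v → v = h x)
    (compl : ∀ x, ∃ m, (T (seg A m) x).isSome = true) :
    Nat.RecursiveIn O (fun x => Part.some (h x)) := by
  refine rec_search (seg_rec hA)
    (T := fun c x => (Encodable.decode c : Option (List Bool)).bind fun s => T s x) ?_ ?_ ?_
  · refine cbind (β := List Bool)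
      (f := fun p : ℕ × ℕ => (Encodable.decode p.1 : Option (List Bool)))
      (g := fun p s => T s p.2) (cdecode (by fun_prop)) ?_
    exact hT.comp (by fun_prop : Computable (fun p : (ℕ × ℕ) × List Bool => (p.2, p.1.2)))
  · intro m x v hv
    simp only [Encodable.encodek, Option.bind_some] at hv
    exact sound m x v hv
  · intro x
    obtain ⟨m, hm⟩ := compl x
    exact ⟨m, by simpa only [Encodable.encodek, Option.bind_some] using hm⟩

theorem red2 {O : Set (ℕ →. ℕ)} {A B : ℕ → Bool} (hA : Nat.RecursiveIn O (chi A))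
    (hB : Nat.RecursiveIn O (chi B))
    {T : List Bool → List Bool → ℕ → Option ℕ}
    (hT : Computable (fun p : List Bool × List Bool × ℕ => T p.1 p.2.1 p.2.2))
    {h : ℕ → ℕ} (sound : ∀ m x v, T (seg A m) (seg B m) x = some v → v = h x)
    (compl : ∀ x, ∃ m, (T (seg A m) (seg B m) x).isSome = true) :
    Nat.RecursiveIn O (fun x => Part.some (h x)) := by
  have hinfo : Nat.RecursiveIn O (fun m => Part.some
      (Nat.pair (Encodable.encode (seg A m)) (Encodable.encode (seg B m)))) := by
    refine ((seg_rec hA).pair (seg_rec hB)).of_eq fun n => ?_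
    simp [Seq.seq]
  refine rec_search hinfo
    (T := fun c x => (Encodable.decode c.unpair.1 : Option (List Bool)).bind fun s =>
      (Encodable.decode c.unpair.2 : Option (List Bool)).bind fun t => T s t x) ?_ ?_ ?_
  · refine cbind (β := List Bool)
      (f := fun p : ℕ × ℕ => (Encodable.decode p.1.unpair.1 : Option (List Bool)))
      (g := fun p s => (Encodable.decode p.1.unpair.2 : Option (List Bool)).bind
        fun t => T s t p.2) (cdecode (by fun_prop)) ?_
    refine cbind (β := List Bool)
      (f := fun p : (ℕ × ℕ) × List Bool => (Encodable.decode p.1.1.unpair.2 : Option (List Bool)))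
      (g := fun p t => T p.2 t p.1.2) (cdecode (by fun_prop)) ?_
    exact hT.comp (by fun_prop : Computable
      (fun p : ((ℕ × ℕ) × List Bool) × List Bool => (p.1.2, p.2, p.1.1.2)))
  · intro m x v hv
    simp only [Nat.unpair_pair, Encodable.encodek, Option.bind_some] at hv
    exact sound m x v hv
  · intro x
    obtain ⟨m, hm⟩ := compl x
    exact ⟨m, by simpa only [Nat.unpair_pair, Encodable.encodek, Option.bind_some] using hm⟩

end Pool.Agent.Helper17.DS
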