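import Pool.Agent.Helper17.DS5

/-!
The requirement theorem: every r.e. set is computable from the constructed set or joins it
above the universal set.
-/

set_option autoImplicit false

namespace Pool.Agent.Helper17.DS

open Nat.Partrec (Code)

theorem V_iff_vQ {i : ℕ} {p : List Bool} {x : ℕ} :
    V i p x ↔ ∃ n, (vQ i p x n).isSome = true := by
  rw [← vb_iff]
  unfold vb
  rw [Option.isSome_iff_ne_none, ne_eq, first_eq_none]
  push Not
  constructor
  · rintro ⟨n, hn⟩
    exact ⟨n, Option.isSome_iff_ne_none.2 hn⟩
  · rintro ⟨n, hn⟩
    exact ⟨n, Option.isSome_iff_ne_none.1 hn⟩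

section
variable {α β γ : Type*} [Primcodable α] [Primcodable β] [Primcodable γ]

@[fun_prop] theorem cvQ {i x n : α → ℕ} {p : α → List Bool} (hi : Computable i)
    (hp : Computable p) (hx : Computable x) (hn : Computable n) :
    Computable (fun a => vQ (i a) (p a) (x a) (n a)) := by
  unfold vQ
  refine cbind (β := List Bool)
    (f := fun a => (Encodable.decode (n a).unpair.1 : Option (List Bool)))
    (g := fun a r => bif safeAt (i a) (p a) r (n a).unpair.2 then Phi (i a) r (x a) else none)
    ?_ ?_
  · exact cdecode (by fun_prop)
  · have hi' : Computable (fun q : α × List Bool => i q.1) := hi.comp Computable.fst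
    have hp' : Computable (fun q : α × List Bool => p q.1) := hp.comp Computable.fst
    have hx' : Computable (fun q : α × List Bool => x q.1) := hx.comp Computable.fst
    have hn' : Computable (fun q : α × List Bool => n q.1) := hn.comp Computable.fst
    have hr : Computable (fun q : α × List Bool => q.2) := Computable.snd
    exact ccond (csafeAt hi' (csnd (cunpair hn')) hp' hr) (cPhi hi' hr hx') (Computable.const none)

end

/-- reduction procedure in the first case -/
def T1 (e l m0 : ℕ) (Xl : List (Option ℕ)) (s : List Bool) (n : ℕ) : Option ℕ :=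
  bif Ks s.length (Nat.pair e n) then some 1 else
    bsearch (fun j => bif leb m0 j.unpair.1 && leb (e + 1) j.unpair.2.unpair.1 &&
        leb j.unpair.2.unpair.1 l then
      ((Xl[j.unpair.2.unpair.1]?).getD none).bind fun x =>
        (vQ j.unpair.2.unpair.1 (qn e n l (s.take j.unpair.1)) x j.unpair.2.unpair.2).map
          (fun _ => 0)
      else none) s.length

theorem cT1 (e l m0 : ℕ) (Xl : List (Option ℕ)) :
    Computable (fun p : List Bool × ℕ => T1 e l m0 Xl p.1 p.2) := by
  unfold T1
  refine ccond (by fun_prop) (by fun_prop) ?_
  refine cbsearch (Q := fun (p : List Bool × ℕ) j => bif leb m0 j.unpair.1 &&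
        leb (e + 1) j.unpair.2.unpair.1 && leb j.unpair.2.unpair.1 l then
      ((Xl[j.unpair.2.unpair.1]?).getD none).bind fun x =>
        (vQ j.unpair.2.unpair.1 (qn e p.2 l (p.1.take j.unpair.1)) x j.unpair.2.unpair.2).map
          (fun _ => 0)
      else none) ?_ (by fun_prop)
  refine ccond (by fun_prop) ?_ (Computable.const none)
  refine cbind (β := ℕ)
    (f := fun q : (List Bool × ℕ) × ℕ => (Xl[q.2.unpair.2.unpair.1]?).getD none)
    (g := fun q x => (vQ q.2.unpair.2.unpair.1 (qn e q.1.2 l (q.1.1.take q.2.unpair.1)) x
      q.2.unpair.2.unpair.2).map (fun _ => 0)) ?_ ?_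
  · exact cgetD (cget (by fun_prop) (Computable.const Xl)) (Computable.const none)
  · exact cmap (g := fun _ _ => 0) (by fun_prop) (Computable.const 0)

/-- reduction procedure in the second case -/
def T2 (e m0 : ℕ) (s w : List Bool) (x : ℕ) : Option ℕ :=
  bsearch (fun c => bif leb m0 c && bitAt s c && eqb (mE c) e && leb (x + 1) (mL c) &&
      leb (mN c + 1) w.length && !bitAt w (mN c) then
    some (bif Ks (mS c) x then 1 else 0) else none) s.length

theorem cT2 (e m0 : ℕ) :
    Computable (fun p : List Bool × List Bool × ℕ => T2 e m0 p.1 p.2.1 p.2.2) := by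
  unfold T2
  fun_prop

theorem requirement (e : ℕ) :
    (∀ O : Set (ℕ →. ℕ), Nat.RecursiveIn O (chi Dset) →
      Nat.RecursiveIn O (chi fun n => kb (Nat.pair e n))) ∨
    (∀ O : Set (ℕ →. ℕ), Nat.RecursiveIn O (chi Dset) →
      Nat.RecursiveIn O (chi fun n => kb (Nat.pair e n)) → Nat.RecursiveIn O (chi kb)) := by
  by_cases hk : ∃ k, ∀ t, Lb e (Dq t) < k
  · left
    intro O hO
    obtain ⟨k, hk⟩ := hk
    obtain ⟨l, m0, X, h⟩ := stuck hk
    refine red1 (h := fun n => bif kb (Nat.pair e n) then 1 else 0) hO
      (cT1 e l m0 ((List.range (l + 1)).map X)) ?_ ?_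
    · intro m n v hv
      unfold T1 at hv
      cases hs : Ks (seg Dset m).length (Nat.pair e n) with
      | true =>
        rw [hs] at hv
        simp only [cond_true, Option.some_inj] at hv
        have : kb (Nat.pair e n) = true := kb_iff.2 ⟨_, hs⟩
        simp only [this, cond_true]
        exact hv.symm
      | false =>
        rw [hs] at hv
        simp only [cond_false] at hv
        rw [bsearch_eq_some] at hv
        obtain ⟨j, hj, h1, _⟩ := hv
        cases ht : (leb m0 j.unpair.1 && leb (e + 1) j.unpair.2.unpair.1 &&
            leb j.unpair.2.unpair.1 l) with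
        | false => rw [ht] at h1; simp at h1
        | true =>
          rw [ht] at h1
          simp only [Bool.and_eq_true, leb_iff] at ht
          obtain ⟨⟨ht1, ht2⟩, ht3⟩ := ht
          simp only [cond_true] at h1
          rw [Option.bind_eq_some_iff] at h1
          obtain ⟨x, hx, h2⟩ := h1
          rw [Option.map_eq_some_iff] at h2
          obtain ⟨v', hv', h3⟩ := h2
          have hXx : X j.unpair.2.unpair.1 = some x := by
            have hlt : j.unpair.2.unpair.1 < l + 1 := by omega
            simpa [hlt] using hx
          have hseg : (seg Dset m).take j.unpair.1 = seg Dset j.unpair.1 := by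
            have hle : j.unpair.1 ≤ m := by
              have := Nat.unpair_left_le j
              rw [seg_length] at hj
              omega
            unfold seg
            rw [← List.map_take, List.take_range, min_eq_left hle]
          rw [hseg] at hv'
          have hnW : ¬ W e n := (h n).2 ⟨j.unpair.1, ht1, j.unpair.2.unpair.1, by omega, ht3, x,
            hXx, V_iff_vQ.2 ⟨j.unpair.2.unpair.2, by rw [hv']; rfl⟩⟩
          have : kb (Nat.pair e n) = false := kb_false_iff.2 hnW
          simp only [this, cond_false]
          exact h3.symm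
    · intro n
      by_cases hW : W e n
      · obtain ⟨s, hs⟩ := hW
        refine ⟨s, ?_⟩
        unfold T1
        rw [seg_length, hs]
        rfl
      · obtain ⟨m, hm, i, hi1, hi2, x, hx, hV⟩ := (h n).1 hW
        obtain ⟨n', hn'⟩ := V_iff_vQ.1 hV
        refine ⟨Nat.pair m (Nat.pair i n') + 1, ?_⟩
        unfold T1
        cases hs : Ks (seg Dset (Nat.pair m (Nat.pair i n') + 1)).length (Nat.pair e n) with
        | true => rfl
        | false =>
          rw [Option.isSome_iff_ne_none]
          simp only [cond_false]
          rw [ne_eq, bsearch_eq_none]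
          intro hall
          have h1 := hall (Nat.pair m (Nat.pair i n')) (by rw [seg_length]; omega)
          have hseg : (seg Dset (Nat.pair m (Nat.pair i n') + 1)).take m = seg Dset m := by
            have hle : m ≤ Nat.pair m (Nat.pair i n') + 1 := by
              have := Nat.left_le_pair m (Nat.pair i n')
              omega
            unfold seg
            rw [← List.map_take, List.take_range, min_eq_left hle]
          have hlt : i < l + 1 := by omega
          simp only [Nat.unpair_pair, leb_iff.2 hm, leb_iff.2 (by omega : e + 1 ≤ i),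
            leb_iff.2 hi2, Bool.and_self, cond_true, hseg] at h1
          simp only [List.getElem?_map, List.getElem?_range hlt, Option.map_some,
            Option.getD_some, hx, Option.bind_some, Option.map_eq_none_iff] at h1
          rw [h1] at hn'
          simp at hn'
  · right
    push Not at hk
    intro O hO hW
    obtain ⟨m0, hm0⟩ := marker_good e
    refine red2 (h := fun x => bif kb x then 1 else 0) hO hW (cT2 e m0) ?_ ?_
    · intro m x v hv
      unfold T2 at hv
      rw [bsearch_eq_some] at hv
      obtain ⟨c, hc, h1, _⟩ := hv
      rw [seg_length] at hc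
      cases ht : (leb m0 c && bitAt (seg Dset m) c && eqb (mE c) e && leb (x + 1) (mL c) &&
          leb (mN c + 1) (seg (fun n => kb (Nat.pair e n)) m).length &&
          !bitAt (seg (fun n => kb (Nat.pair e n)) m) (mN c)) with
      | false => rw [ht] at h1; simp at h1
      | true =>
        rw [ht] at h1
        simp only [Bool.and_eq_true, leb_iff, eqb_iff, seg_length, Bool.not_eq_true'] at ht
        obtain ⟨⟨⟨⟨⟨ht1, ht2⟩, ht3⟩, ht4⟩, ht5⟩, ht6⟩ := ht
        rw [bitAt_seg hc] at ht2
        rw [bitAt_seg (by omega)] at ht6
        have hC := hm0 c ht1 ht2 ht3 (kb_false_iff.1 ht6)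
        simp only [cond_true, Option.some_inj] at h1
        rw [← h1]
        have hxk : Ks (mS c) x = kb x := by
          by_cases hx : K x
          · rw [kb_iff.2 hx]
            exact Cb_iff.1 hC x (by omega) hx
          · rw [kb_false_iff.2 hx]
            by_contra h2
            exact hx ⟨_, by simpa using h2⟩
        simp only [hxk]
    · intro x
      obtain ⟨t, ht⟩ := hk (max (x + 1) m0 + 1)
      obtain ⟨c, hb, he, hl, hnW⟩ := Lb_min (l := max (x + 1) m0) (by omega : _ < Lb e (Dq t))
      refine ⟨max c (mN c) + 1, ?_⟩
      unfold T2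
      rw [Option.isSome_iff_ne_none, ne_eq, bsearch_eq_none]
      intro hall
      have h1 := hall c (by rw [seg_length]; omega)
      have hmL := mL_le c
      have hDc : Dset c = true := by rw [Dset_eq (bitAt_lt hb)]; exact hb
      have hmc : m0 ≤ c := by omega
      rw [bitAt_seg (by omega), bitAt_seg (by omega), seg_length, hDc, kb_false_iff.2 hnW,
        leb_iff.2 hmc, eqb_iff.2 he, leb_iff.2 (by omega : x + 1 ≤ mL c),
        leb_iff.2 (by omega : mN c + 1 ≤ max c (mN c) + 1)] at h1
      simp at h1

end Pool.Agent.Helper17.DS
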