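import Pool.Agent.Helper17.DS6

/-!
Computable copies of the natural order and the degree dichotomy for the image of the relation.
-/

set_option autoImplicit false

namespace Pool.Agent.Helper17.DS

open Nat.Partrec (Code)

/-- total function recursive in a set of oracles -/
def RT (O : Set (ℕ →. ℕ)) (h : ℕ → ℕ) : Prop := Nat.RecursiveIn O (fun n => Part.some (h n))

theorem RT.of_comp {O : Set (ℕ →. ℕ)} {h : ℕ → ℕ} (hh : Computable h) : RT O h := by
  apply Nat.Partrec.recursiveIn
  rw [← Partrec.nat_iff]
  exact hh.partrec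

theorem RT.comp {O : Set (ℕ →. ℕ)} {h k : ℕ → ℕ} (hh : RT O h) (hk : RT O k) :
    RT O (fun n => h (k n)) := by
  refine (Nat.RecursiveIn.comp hh hk).of_eq fun n => ?_
  simp

theorem RT.pair {O : Set (ℕ →. ℕ)} {h k : ℕ → ℕ} (hh : RT O h) (hk : RT O k) :
    RT O (fun n => Nat.pair (h n) (k n)) := by
  refine (Nat.RecursiveIn.pair hh hk).of_eq fun n => ?_
  simp [Seq.seq]

theorem RT.chi {O : Set (ℕ →. ℕ)} {A : ℕ → Bool} :
    Nat.RecursiveIn O (chi A) ↔ RT O (fun n => bif A n then 1 else 0) := Iff.rfl

/-- the easy half of the limit lemma -/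
theorem limit_lemma {h : ℕ → Bool} (hh : LimComp h) : Nat.RecursiveIn {chi kb} (chi h) := by
  obtain ⟨G, hG, hG2⟩ := hh
  have hG' : Computable (fun p : ℕ × ℕ => G p.1 p.2) := hG
  have hval : Computable (fun p : ℕ × ℕ => (bif G p.1 p.2 then 1 else 0 : ℕ)) :=
    ccond hG' (Computable.const 1) (Computable.const 0)
  have hQ1 : Computable (fun p : ℕ × ℕ => (bif G p.1.unpair.1 p.2 then 1 else 0 : ℕ)) :=
    Computable.comp (f := fun p : ℕ × ℕ => (bif G p.1 p.2 then 1 else 0 : ℕ))
      (g := fun p : ℕ × ℕ => (p.1.unpair.1, p.2)) hval (by fun_prop)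
  have hQ2 : Computable (fun p : ℕ × ℕ =>
      (bif G p.1.unpair.1 p.1.unpair.2 then 1 else 0 : ℕ)) :=
    Computable.comp (f := fun p : ℕ × ℕ => (bif G p.1 p.2 then 1 else 0 : ℕ))
      (g := fun p : ℕ × ℕ => (p.1.unpair.1, p.1.unpair.2)) hval (by fun_prop)
  obtain ⟨e, he⟩ := K_universal (Q := fun n t => leb n.unpair.2 t &&
    !eqb (bif G n.unpair.1 t then 1 else 0) (bif G n.unpair.1 n.unpair.2 then 1 else 0))
    (cand (by fun_prop) (cnot (ceqb hQ1 hQ2)))
  have horacle : Nat.RecursiveIn {chi kb} (chi kb) := Nat.RecursiveIn.oracle _ rfl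
  refine red1 (h := fun x => bif h x then 1 else 0) horacle
    (T := fun s x => bsearch (fun s0 => bif leb (Nat.pair e (Nat.pair x s0) + 1) s.length &&
      !bitAt s (Nat.pair e (Nat.pair x s0)) then some (bif G x s0 then 1 else 0) else none)
      s.length) ?_ ?_ ?_
  · refine cbsearch (Q := fun (p : List Bool × ℕ) s0 =>
      bif leb (Nat.pair e (Nat.pair p.2 s0) + 1) p.1.length &&
      !bitAt p.1 (Nat.pair e (Nat.pair p.2 s0)) then some (bif G p.2 s0 then 1 else 0) else none)
      ?_ (by fun_prop)
    refine ccond (by fun_prop) (csome ?_) (Computable.const none)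
    exact hval.comp (by fun_prop : Computable (fun p : (List Bool × ℕ) × ℕ => (p.1.2, p.2)))
  · intro m x v hv
    rw [bsearch_eq_some] at hv
    obtain ⟨s0, _, h1, _⟩ := hv
    cases ht : (leb (Nat.pair e (Nat.pair x s0) + 1) (seg kb m).length &&
      !bitAt (seg kb m) (Nat.pair e (Nat.pair x s0))) with
    | false => rw [ht] at h1; simp at h1
    | true =>
      rw [ht] at h1
      simp only [Bool.and_eq_true, leb_iff, seg_length, Bool.not_eq_true'] at ht
      rw [bitAt_seg (by omega), kb_false_iff, he] at ht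
      simp only [cond_true, Option.some_inj] at h1
      rw [← h1]
      obtain ⟨s1, hs1⟩ := hG2 x
      have h2 := ht.2
      push Not at h2
      have h3 := h2 (max s0 s1)
      have h4 := hs1 (max s0 s1) (le_max_right _ _)
      simp only [Nat.unpair_pair, leb_iff.2 (le_max_left s0 s1), Bool.true_and, ne_eq,
        Bool.not_eq_true, Bool.not_eq_false', eqb_iff, h4] at h3
      exact h3.symm
  · intro x
    obtain ⟨s0, hs0⟩ := hG2 x
    refine ⟨max s0 (Nat.pair e (Nat.pair x s0)) + 1, ?_⟩
    rw [Option.isSome_iff_ne_none, ne_eq, bsearch_eq_none]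
    intro hall
    have h1 := hall s0 (by rw [seg_length]; omega)
    have h2 : kb (Nat.pair e (Nat.pair x s0)) = false := by
      rw [kb_false_iff, he]
      rintro ⟨t, ht⟩
      simp only [Nat.unpair_pair, Bool.and_eq_true, leb_iff, Bool.not_eq_true',
        eqb_false_iff] at ht
      apply ht.2
      rw [hs0 t ht.1, hs0 s0 le_rfl]
    rw [bitAt_seg (by omega), h2, seg_length, leb_iff.2 (by omega :
      Nat.pair e (Nat.pair x s0) + 1 ≤ max s0 (Nat.pair e (Nat.pair x s0)) + 1)] at h1
    simp at h1

/-! ### computable copies -/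

/-- `lb` is a computable Boolean copy of the natural order through `f` -/
def Copy (lb : ℕ → ℕ → Bool) (f : ℕ ≃ ℕ) : Prop :=
  Computable (fun p : ℕ × ℕ => lb p.1 p.2) ∧ ∀ a b, lb a b = true ↔ f.symm a < f.symm b

/-- the number of elements below `b` seen by stage `s` -/
def cnt (lb : ℕ → ℕ → Bool) (b s : ℕ) : ℕ :=
  Nat.rec 0 (fun a ih => ih + bif lb a b then 1 else 0) s

theorem cnt_eq (lb : ℕ → ℕ → Bool) (b s : ℕ) :
    cnt lb b s = ((Finset.range s).filter (fun a => lb a b = true)).card := by
  induction s with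
  | zero => rfl
  | succ s ih =>
    show cnt lb b s + (bif lb s b then 1 else 0) = _
    rw [ih, Finset.range_add_one, Finset.filter_insert]
    cases h : lb s b with
    | true =>
      rw [if_pos rfl, Finset.card_insert_of_notMem (by simp)]
      rfl
    | false =>
      simp

theorem cnt_le {lb : ℕ → ℕ → Bool} {f : ℕ ≃ ℕ} (h : Copy lb f) (b s : ℕ) :
    cnt lb b s ≤ f.symm b := by
  rw [cnt_eq]
  have : ((Finset.range s).filter (fun a => lb a b = true)).card ≤
      (Finset.range (f.symm b)).card := by
    refine Finset.card_le_card_of_injOn f.symm ?_ f.symm.injective.injOn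
    intro a ha
    have ha' := Finset.mem_filter.1 (Finset.mem_coe.1 ha)
    simpa using (h.2 a b).1 ha'.2
  simpa using this

theorem cnt_lim {lb : ℕ → ℕ → Bool} {f : ℕ ≃ ℕ} (h : Copy lb f) (b : ℕ) :
    ∃ s0, ∀ s, s0 ≤ s → cnt lb b s = f.symm b := by
  refine ⟨(Finset.range (f.symm b)).sup f + 1, fun s hs => le_antisymm (cnt_le h b s) ?_⟩
  rw [cnt_eq]
  have : (Finset.range (f.symm b)).card ≤
      ((Finset.range s).filter (fun a => lb a b = true)).card := by
    refine Finset.card_le_card_of_injOn f ?_ f.injective.injOn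
    intro x hx
    refine Finset.mem_coe.2 (Finset.mem_filter.2 ⟨?_, ?_⟩)
    · have := Finset.le_sup (f := f) (Finset.mem_coe.1 hx)
      rw [Finset.mem_range]
      omega
    · rw [h.2, Equiv.symm_apply_apply]
      simpa using hx
  simpa using this

section
variable {α : Type*} [Primcodable α]

theorem ccnt {lb : ℕ → ℕ → Bool} (h : Computable (fun p : ℕ × ℕ => lb p.1 p.2))
    {b s : α → ℕ} (hb : Computable b) (hs : Computable s) :
    Computable (fun a => cnt lb (b a) (s a)) := by
  unfold cnt
  refine cnatrec (f := fun _ => 0) (h := fun a n ih => ih + bif lb n (b a) then 1 else 0) hs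
    (Computable.const 0) ?_
  have h1 : Computable (fun p : α × ℕ × ℕ => b p.1) := hb.comp Computable.fst
  have h2 : Computable (fun p : α × ℕ × ℕ => (p.2.1, b p.1)) := cpair (by fun_prop) h1
  refine cadd (by fun_prop) (ccond (h.comp h2) (Computable.const 1) (Computable.const 0))

end

theorem lsymm {lb : ℕ → ℕ → Bool} {f : ℕ ≃ ℕ} (h : Copy lb f) :
    LimComp (fun b => f.symm b) :=
  ⟨fun b s => cnt lb b s, by
    have := ccnt h.1 (b := fun p : ℕ × ℕ => p.1) (s := fun p => p.2) (by fun_prop) (by fun_prop)
    exact this, fun b => cnt_lim h b⟩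

/-- the r.e. set attached to a copy -/
theorem exists_index {lb : ℕ → ℕ → Bool} {f : ℕ ≃ ℕ} (h : Copy lb f) :
    ∃ e, ∀ n, kb (Nat.pair e n) = leb (n.unpair.2 + 1) (f.symm n.unpair.1) := by
  obtain ⟨e, he⟩ := K_universal (Q := fun n s => leb (n.unpair.2 + 1) (cnt lb n.unpair.1 s))
    (cleb (by fun_prop) (ccnt h.1 (by fun_prop) (by fun_prop)))
  refine ⟨e, fun n => ?_⟩
  rw [Bool.eq_iff_iff, kb_iff, he]
  constructor
  · rintro ⟨s, hs⟩
    rw [leb_iff] at hs ⊢
    exact le_trans hs (cnt_le h _ _)
  · intro hn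
    obtain ⟨s0, hs0⟩ := cnt_lim h n.unpair.1
    exact ⟨s0, by rw [hs0 s0 le_rfl]; exact hn⟩

/-- the rank function from the r.e. set -/
theorem rank_of_W {O : Set (ℕ →. ℕ)} {f : ℕ ≃ ℕ} {e : ℕ}
    (he : ∀ n, kb (Nat.pair e n) = leb (n.unpair.2 + 1) (f.symm n.unpair.1))
    (hW : Nat.RecursiveIn O (chi fun n => kb (Nat.pair e n))) : RT O (fun b => f.symm b) := by
  refine red1 (h := fun b => f.symm b) hW
    (T := fun s b => bsearch (fun k => bif leb (Nat.pair b k + 1) s.length &&
      !bitAt s (Nat.pair b k) then some k else none) s.length) (by fun_prop) ?_ ?_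
  · intro m b v hv
    rw [bsearch_eq_some] at hv
    obtain ⟨k, _, h1, h2⟩ := hv
    cases ht : (leb (Nat.pair b k + 1) (seg (fun n => kb (Nat.pair e n)) m).length &&
      !bitAt (seg (fun n => kb (Nat.pair e n)) m) (Nat.pair b k)) with
    | false => rw [ht] at h1; simp at h1
    | true =>
      rw [ht] at h1
      simp only [Bool.and_eq_true, leb_iff, seg_length, Bool.not_eq_true'] at ht
      rw [bitAt_seg (by omega), he, leb_false_iff] at ht
      simp only [Nat.unpair_pair] at ht
      simp only [cond_true, Option.some_inj] at h1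
      subst h1
      by_contra hne
      have hlt : f.symm b < k := by omega
      have h3 := h2 _ hlt
      have hpl : Nat.pair b (f.symm b) < Nat.pair b k := Nat.pair_lt_pair_right b hlt
      rw [bitAt_seg (by omega), he, seg_length, leb_iff.2 (by omega :
        Nat.pair b (f.symm b) + 1 ≤ m)] at h3
      simp only [Nat.unpair_pair] at h3
      rw [leb_false_iff.2 (by omega)] at h3
      simp at h3
  · intro b
    refine ⟨Nat.pair b (f.symm b) + 1, ?_⟩
    rw [Option.isSome_iff_ne_none, ne_eq, bsearch_eq_none]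
    intro hall
    have hle := Nat.right_le_pair b (f.symm b)
    have h1 := hall (f.symm b) (by rw [seg_length]; omega)
    rw [bitAt_seg (by omega), he, seg_length, leb_iff.2 le_rfl] at h1
    simp only [Nat.unpair_pair] at h1
    rw [leb_false_iff.2 (by omega)] at h1
    simp at h1

/-! ### the relation -/

/-- the relation: successor pairs, and some reversed successor pairs -/
def Rel (l : List ℕ) : Prop := (∃ x, l = [x, x + 1]) ∨ (∃ x, Dset x = true ∧ l = [x + 1, x])

/-- first component of a coded tuple -/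
def ca (k : ℕ) : ℕ := ((Denumerable.ofNat (List ℕ) k)[0]?).getD 0
/-- second component of a coded tuple -/
def cb (k : ℕ) : ℕ := ((Denumerable.ofNat (List ℕ) k)[1]?).getD 0
/-- the coded tuple is a pair -/
def c2 (k : ℕ) : Bool := eqb (Denumerable.ofNat (List ℕ) k).length 2

@[simp] theorem ca_enc (a b : ℕ) : ca (Encodable.encode [a, b]) = a := by
  simp [ca]
@[simp] theorem cb_enc (a b : ℕ) : cb (Encodable.encode [a, b]) = b := by
  simp [cb]
@[simp] theorem c2_enc (a b : ℕ) : c2 (Encodable.encode [a, b]) = true := by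
  simp [c2]

theorem enc_of_c2 {k : ℕ} (h : c2 k = true) : Encodable.encode [ca k, cb k] = k := by
  unfold c2 at h
  rw [eqb_iff] at h
  obtain ⟨a, b, hab⟩ := List.length_eq_two.1 h
  have h1 : ca k = a := by simp [ca, hab]
  have h2 : cb k = b := by simp [cb, hab]
  rw [h1, h2, ← hab, Denumerable.encode_ofNat]

section
variable {α : Type*} [Primcodable α]
@[fun_prop] theorem cca {f : α → ℕ} (hf : Computable f) : Computable (fun a => ca (f a)) := by
  unfold ca; fun_prop
@[fun_prop] theorem ccb {f : α → ℕ} (hf : Computable f) : Computable (fun a => cb (f a)) := by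
  unfold cb; fun_prop
@[fun_prop] theorem cc2 {f : α → ℕ} (hf : Computable f) : Computable (fun a => c2 (f a)) := by
  unfold c2; fun_prop
@[fun_prop] theorem lca {f : α → ℕ} (hf : LimComp f) : LimComp (fun a => ca (f a)) :=
  LimComp.comp1 (by fun_prop) hf
@[fun_prop] theorem lcb {f : α → ℕ} (hf : LimComp f) : LimComp (fun a => cb (f a)) :=
  LimComp.comp1 (by fun_prop) hf
@[fun_prop] theorem lc2 {f : α → ℕ} (hf : LimComp f) : LimComp (fun a => c2 (f a)) :=
  LimComp.comp1 (by fun_prop) hf
end

/-- the image of the relation under `f`, as a Boolean function on codes -/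
noncomputable def Af (f : ℕ ≃ ℕ) (k : ℕ) : Bool :=
  c2 k && (eqb (f.symm (cb k)) (f.symm (ca k) + 1) ||
    (eqb (f.symm (ca k)) (f.symm (cb k) + 1) && Dset (f.symm (cb k))))

theorem Af_iff (f : ℕ ≃ ℕ) (k : ℕ) :
    Af f k = true ↔ ∃ l : List ℕ, Encodable.encode (l.map f) = k ∧ Rel l := by
  unfold Af
  simp only [Bool.and_eq_true, Bool.or_eq_true, eqb_iff]
  constructor
  · rintro ⟨h2, h⟩
    have hk := enc_of_c2 h2
    rcases h with h | ⟨h, hD⟩
    · refine ⟨[f.symm (ca k), f.symm (ca k) + 1], ?_, Or.inl ⟨_, rfl⟩⟩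
      rw [← h]
      simpa using hk
    · refine ⟨[f.symm (cb k) + 1, f.symm (cb k)], ?_, Or.inr ⟨_, hD, rfl⟩⟩
      rw [← h]
      simpa using hk
  · rintro ⟨l, hl, hR⟩
    rcases hR with ⟨x, rfl⟩ | ⟨x, hx, rfl⟩
    · simp only [List.map_cons, List.map_nil] at hl
      rw [← hl, c2_enc, cb_enc, ca_enc, Equiv.symm_apply_apply, Equiv.symm_apply_apply]
      exact ⟨rfl, Or.inl rfl⟩
    · simp only [List.map_cons, List.map_nil] at hl
      rw [← hl, c2_enc, cb_enc, ca_enc, Equiv.symm_apply_apply, Equiv.symm_apply_apply]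
      exact ⟨rfl, Or.inr ⟨rfl, hx⟩⟩

theorem lAf {lb : ℕ → ℕ → Bool} {f : ℕ ≃ ℕ} (h : Copy lb f) : LimComp (Af f) := by
  have hs := lsymm h
  have h1 : LimComp (fun k => f.symm (ca k)) := lcomp hs (by fun_prop)
  have h2 : LimComp (fun k => f.symm (cb k)) := lcomp hs (by fun_prop)
  have : LimComp (fun k => c2 k && (eqb (f.symm (cb k)) (f.symm (ca k) + 1) ||
    (eqb (f.symm (ca k)) (f.symm (cb k) + 1) && Dset (f.symm (cb k))))) := by
    refine land (by fun_prop) (lor (leqb h2 (ladd h1 (lconst 1)))
      (land (leqb h1 (ladd h2 (lconst 1))) (lDset h2)))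
  exact this

/-- the image is computable from the rank function and the constructed set -/
theorem Af_of_rank {O : Set (ℕ →. ℕ)} {f : ℕ ≃ ℕ} (hg : RT O (fun b => f.symm b))
    (hD : Nat.RecursiveIn O (chi Dset)) : Nat.RecursiveIn O (chi (Af f)) := by
  have hD' : RT O (fun n => bif Dset n then 1 else 0) := hD
  have h1 : RT O (fun k => f.symm (ca k)) := hg.comp (RT.of_comp (by fun_prop))
  have h2 : RT O (fun k => f.symm (cb k)) := hg.comp (RT.of_comp (by fun_prop))
  have h3 : RT O (fun k => bif Dset (f.symm (cb k)) then 1 else 0) := hD'.comp h2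
  have h4 := (RT.of_comp (O := O) (h := fun n => n) (by fun_prop)).pair (h1.pair (h2.pair h3))
  have h5 : RT O (fun q => bif (c2 q.unpair.1 &&
      (eqb q.unpair.2.unpair.2.unpair.1 (q.unpair.2.unpair.1 + 1) ||
      (eqb q.unpair.2.unpair.1 (q.unpair.2.unpair.2.unpair.1 + 1) &&
        eqb q.unpair.2.unpair.2.unpair.2 1))) then 1 else 0) := RT.of_comp (by fun_prop)
  refine (h5.comp h4).of_eq fun k => ?_
  simp only [Nat.unpair_pair]
  unfold chi Af
  have : eqb (bif Dset (f.symm (cb k)) then 1 else 0) 1 = Dset (f.symm (cb k)) := by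
    cases Dset (f.symm (cb k)) <;> rfl
  rw [this]

/-- one step of the procedure recovering the isomorphism from the image -/
def nextF (lb : ℕ → ℕ → Bool) (s : List Bool) (b : ℕ) : Option ℕ :=
  bsearch (fun b' => bif lb b b' && bitAt s (Encodable.encode [b, b']) then some b' else none)
    s.length

theorem cnextF {lb : ℕ → ℕ → Bool} (h : Computable (fun p : ℕ × ℕ => lb p.1 p.2)) :
    Computable (fun p : List Bool × ℕ => nextF lb p.1 p.2) := by
  unfold nextF
  refine cbsearch (Q := fun (p : List Bool × ℕ) (b' : ℕ) =>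
    bif lb p.2 b' && bitAt p.1 (Encodable.encode [p.2, b']) then some b' else none)
    ?_ (clen Computable.fst)
  have h1 : Computable (fun p : (List Bool × ℕ) × ℕ => (p.1.2, p.2)) := by fun_prop
  have h2 : Computable (fun p : (List Bool × ℕ) × ℕ =>
      bitAt p.1.1 (Encodable.encode [p.1.2, p.2])) := by
    refine cbitAt (by fun_prop) (cencode (ccons (by fun_prop) (ccons (by fun_prop)
      (Computable.const []))))
  exact ccond (cand (h.comp h1) h2) (csome Computable.snd) (Computable.const none)

/-- procedure recovering the isomorphism from the image -/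
def TF (lb : ℕ → ℕ → Bool) (b0 : ℕ) (s : List Bool) (j : ℕ) : Option ℕ :=
  Nat.rec (some b0) (fun _ ih => ih.bind fun b => nextF lb s b) j

theorem cTF_aux {lb : ℕ → ℕ → Bool}
    (hn : Computable (fun p : List Bool × ℕ => nextF lb p.1 p.2)) :
    Computable fun (p : (List Bool × ℕ) × ℕ × Option ℕ) =>
      (p.2.2).bind fun b => nextF lb p.1.1 b := by
  have h1 : Computable (fun p : ((List Bool × ℕ) × ℕ × Option ℕ) × ℕ => (p.1.1.1, p.2)) :=
    (Computable.fst.comp (Computable.fst.comp Computable.fst)).pair Computable.snd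
  have h2 : Computable (fun p : ((List Bool × ℕ) × ℕ × Option ℕ) × ℕ =>
      nextF lb p.1.1.1 p.2) :=
    Computable.comp (f := fun p : List Bool × ℕ => nextF lb p.1 p.2)
      (g := fun p : ((List Bool × ℕ) × ℕ × Option ℕ) × ℕ => (p.1.1.1, p.2)) hn h1
  have h3 : Computable (fun p : (List Bool × ℕ) × ℕ × Option ℕ => p.2.2) := by fun_prop
  exact cbind h3 h2

theorem cTF {lb : ℕ → ℕ → Bool} (h : Computable (fun p : ℕ × ℕ => lb p.1 p.2)) (b0 : ℕ) :
    Computable (fun p : List Bool × ℕ => TF lb b0 p.1 p.2) := by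
  unfold TF
  have hn := cTF_aux (cnextF h)
  exact cnatrec (α := List Bool × ℕ) (β := Option ℕ) (s := fun p => p.2)
    (f := fun _ => some b0) (h := fun p _ ih => ih.bind fun b => nextF lb p.1 b)
    Computable.snd (Computable.const _) hn

theorem Af_succ {lb : ℕ → ℕ → Bool} {f : ℕ ≃ ℕ} (h : Copy lb f) (x b' : ℕ) :
    (lb (f x) b' && Af f (Encodable.encode [f x, b'])) = true ↔ b' = f (x + 1) := by
  rw [Bool.and_eq_true, h.2]
  unfold Af
  simp only [c2_enc, cb_enc, ca_enc, Equiv.symm_apply_apply, Bool.true_and, Bool.or_eq_true,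
    Bool.and_eq_true, eqb_iff]
  constructor
  · rintro ⟨h1, h2⟩
    have h3 : f.symm b' = x + 1 := by omega
    rw [← h3, Equiv.apply_symm_apply]
  · rintro rfl
    simp

theorem TF_spec {lb : ℕ → ℕ → Bool} {f : ℕ ≃ ℕ} (h : Copy lb f) (j : ℕ) :
    (∀ m v, TF lb (f 0) (seg (Af f) m) j = some v → v = f j) ∧
    (∃ m0, ∀ m, m0 ≤ m → TF lb (f 0) (seg (Af f) m) j = some (f j)) := by
  induction j with
  | zero =>
    refine ⟨fun m v hv => ?_, 0, fun m _ => rfl⟩
    change some (f 0) = some v at hv
    exact (Option.some_inj.1 hv).symm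
  | succ j ih =>
    obtain ⟨ih1, m0, ih2⟩ := ih
    refine ⟨fun m v hv => ?_, ?_⟩
    · change (TF lb (f 0) (seg (Af f) m) j).bind _ = some v at hv
      rw [Option.bind_eq_some_iff] at hv
      obtain ⟨b, hb, h1⟩ := hv
      have hb' := ih1 m b hb
      subst hb'
      unfold nextF at h1
      rw [bsearch_eq_some] at h1
      obtain ⟨b', _, h2, _⟩ := h1
      cases ht : (lb (f j) b' && bitAt (seg (Af f) m) (Encodable.encode [f j, b'])) with
      | false => rw [ht] at h2; simp at h2
      | true =>
        rw [ht] at h2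
        simp only [cond_true, Option.some_inj] at h2
        subst h2
        rw [Bool.and_eq_true] at ht
        have h3 := bitAt_lt ht.2
        rw [seg_length] at h3
        rw [bitAt_seg h3] at ht
        exact (Af_succ h j b').1 (by rw [Bool.and_eq_true]; exact ht)
    · refine ⟨max m0 (max (Encodable.encode [f j, f (j + 1)]) (f (j + 1)) + 1), fun m hm => ?_⟩
      change (TF lb (f 0) (seg (Af f) m) j).bind _ = some _
      rw [ih2 m (by omega), Option.bind_some]
      unfold nextF
      rw [bsearch_eq_some]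
      have hA := (Af_succ h j (f (j + 1))).2 rfl
      refine ⟨f (j + 1), by rw [seg_length]; omega, ?_, fun b' hb' => ?_⟩
      · rw [bitAt_seg (by omega), hA]
        rfl
      · cases ht : (lb (f j) b' && bitAt (seg (Af f) m) (Encodable.encode [f j, b'])) with
        | false => rfl
        | true =>
          exfalso
          rw [Bool.and_eq_true] at ht
          have h3 := bitAt_lt ht.2
          rw [seg_length] at h3
          rw [bitAt_seg h3] at ht
          have := (Af_succ h j b').1 (by rw [Bool.and_eq_true]; exact ht)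
          omega

/-- the isomorphism is computable from the image -/
theorem f_of_Af {O : Set (ℕ →. ℕ)} {lb : ℕ → ℕ → Bool} {f : ℕ ≃ ℕ} (h : Copy lb f)
    (hA : Nat.RecursiveIn O (chi (Af f))) : RT O (fun j => f j) := by
  refine red1 (h := fun j => f j) hA (cTF h.1 (f 0)) ?_ ?_
  · intro m x v hv
    exact (TF_spec h x).1 m v hv
  · intro x
    obtain ⟨m0, hm0⟩ := (TF_spec h x).2
    exact ⟨m0, by rw [hm0 m0 le_rfl]; rfl⟩

theorem symm_of_f {O : Set (ℕ →. ℕ)} {f : ℕ ≃ ℕ} (hf : RT O (fun j => f j)) :
    RT O (fun b => f.symm b) := by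
  have hinfo : RT O (fun m => Nat.pair m (f m)) := (RT.of_comp (by fun_prop)).pair hf
  refine rec_search (info := fun m => Nat.pair m (f m)) hinfo
    (T := fun c b => bif eqb c.unpair.2 b then some c.unpair.1 else none) ?_ ?_ ?_
  · exact ccond (by fun_prop) (by fun_prop) (Computable.const none)
  · intro m b v hv
    simp only [Nat.unpair_pair] at hv
    cases ht : eqb (f m) b with
    | false => rw [ht] at hv; simp at hv
    | true =>
      rw [ht] at hv
      rw [eqb_iff] at ht
      simp only [cond_true, Option.some_inj] at hv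
      subst ht
      simp [hv]
  · intro b
    refine ⟨f.symm b, ?_⟩
    simp only [Nat.unpair_pair, Equiv.apply_symm_apply]
    rw [eqb_iff.2 rfl]
    rfl

theorem D_of_Af {O : Set (ℕ →. ℕ)} {lb : ℕ → ℕ → Bool} {f : ℕ ≃ ℕ} (h : Copy lb f)
    (hA : Nat.RecursiveIn O (chi (Af f))) : Nat.RecursiveIn O (chi Dset) := by
  have hf := f_of_Af h hA
  have hA' : RT O (fun n => bif Af f n then 1 else 0) := hA
  have h1 : RT O (fun x => f (x + 1)) := hf.comp (RT.of_comp (by fun_prop))
  have h2 : RT O (fun q => Encodable.encode [q.unpair.1, q.unpair.2]) :=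
    RT.of_comp (by fun_prop)
  have h3 := hA'.comp (h2.comp (h1.pair hf))
  refine h3.of_eq fun x => ?_
  simp only [Nat.unpair_pair]
  unfold chi
  have : Af f (Encodable.encode [f (x + 1), f x]) = Dset x := by
    unfold Af
    simp only [c2_enc, cb_enc, ca_enc, Equiv.symm_apply_apply, Bool.true_and]
    rw [eqb_false_iff.2 (by omega : x ≠ x + 1 + 1), eqb_iff.2 rfl]
    simp
  rw [this]

theorem W_of_rank {O : Set (ℕ →. ℕ)} {f : ℕ ≃ ℕ} {e : ℕ}
    (he : ∀ n, kb (Nat.pair e n) = leb (n.unpair.2 + 1) (f.symm n.unpair.1))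
    (hg : RT O (fun b => f.symm b)) : Nat.RecursiveIn O (chi fun n => kb (Nat.pair e n)) := by
  have h1 : RT O (fun n => f.symm n.unpair.1) := hg.comp (RT.of_comp (by fun_prop))
  have h2 := (RT.of_comp (O := O) (h := fun n => n) (by fun_prop)).pair h1
  have h3 : RT O (fun q => bif leb (q.unpair.1.unpair.2 + 1) q.unpair.2 then 1 else 0) :=
    RT.of_comp (by fun_prop)
  refine (h3.comp h2).of_eq fun n => ?_
  simp only [Nat.unpair_pair]
  unfold chi
  simp only [he]

/-- the degree of the image is one of two fixed degrees -/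
theorem dichotomy {lb : ℕ → ℕ → Bool} {f : ℕ ≃ ℕ} (h : Copy lb f) :
    (Nat.RecursiveIn {chi Dset} (chi (Af f)) ∧ Nat.RecursiveIn {chi (Af f)} (chi Dset)) ∨
    (Nat.RecursiveIn {chi kb} (chi (Af f)) ∧ Nat.RecursiveIn {chi (Af f)} (chi kb)) := by
  obtain ⟨e, he⟩ := exists_index h
  have hself : ∀ A : ℕ → Bool, Nat.RecursiveIn {chi A} (chi A) :=
    fun A => Nat.RecursiveIn.oracle _ rfl
  rcases requirement e with hr | hr
  · left
    exact ⟨Af_of_rank (rank_of_W he (hr _ (hself _))) (hself _), D_of_Af h (hself _)⟩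
  · right
    refine ⟨limit_lemma (lAf h), hr _ (D_of_Af h (hself _)) ?_⟩
    exact W_of_rank he (symm_of_f (f_of_Af h (hself _)))

/-! ### the copy computing the universal set -/

/-- the stage at which an element enters -/
def exact_ (y s : ℕ) : Bool := Ks s y && !Ks (s - 1) y

/-- the key function of the special copy -/
def key (n : ℕ) : ℕ := bif exact_ n.unpair.1 n.unpair.2 then 2 * n.unpair.1 else 2 * n + 1

theorem exact_unique {y s t : ℕ} (hs : exact_ y s = true) (ht : exact_ y t = true) : s = t := by
  unfold exact_ at hs ht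
  simp only [Bool.and_eq_true, Bool.not_eq_true'] at hs ht
  by_contra hne
  rcases Nat.lt_or_gt_of_ne hne with hlt | hlt
  · have := Ks_mono (by omega : s ≤ t - 1) hs.1
    rw [ht.2] at this
    simp at this
  · have := Ks_mono (by omega : t ≤ s - 1) ht.1
    rw [hs.2] at this
    simp at this

theorem exact_exists {y : ℕ} (h : K y) : ∃ s, exact_ y s = true := by
  classical
  have h1 := Nat.find_spec h
  refine ⟨Nat.find h, ?_⟩
  unfold exact_
  rw [h1, Bool.true_and, Bool.not_eq_true']
  by_cases h0 : Nat.find h = 0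
  · exfalso
    rw [h0] at h1
    unfold Ks at h1
    simp [Code.evaln] at h1
  · have := Nat.find_min h (m := Nat.find h - 1) (by omega)
    simpa using this

theorem key_injective : Function.Injective key := by
  intro m n h
  unfold key at h
  cases h1 : exact_ m.unpair.1 m.unpair.2 <;> cases h2 : exact_ n.unpair.1 n.unpair.2 <;>
    rw [h1, h2] at h <;> simp only [cond_true, cond_false] at h
  · omega
  · omega
  · omega
  · have h3 : m.unpair.1 = n.unpair.1 := by omega
    rw [h3] at h1
    have h4 := exact_unique h1 h2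
    rw [← Nat.pair_unpair m, ← Nat.pair_unpair n, h3, h4]

theorem ckey : Computable key := by
  have : Computable (fun n => bif exact_ n.unpair.1 n.unpair.2 then 2 * n.unpair.1
    else 2 * n + 1) := by
    unfold exact_
    fun_prop
  exact this

theorem key_even (y : ℕ) : (∃ n, key n = 2 * y) ↔ K y := by
  constructor
  · rintro ⟨n, hn⟩
    unfold key at hn
    cases h : exact_ n.unpair.1 n.unpair.2 with
    | false => rw [h] at hn; simp only [cond_false] at hn; omega
    | true =>
      rw [h] at hn
      simp only [cond_true] at hn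
      have h3 : n.unpair.1 = y := by omega
      rw [h3] at h
      unfold exact_ at h
      rw [Bool.and_eq_true] at h
      exact ⟨_, h.1⟩
  · intro h
    obtain ⟨s, hs⟩ := exact_exists h
    refine ⟨Nat.pair y s, ?_⟩
    unfold key
    simp [hs]

instance key_range_infinite : Infinite (Set.range key) :=
  (Set.infinite_range_of_injective key_injective).to_subtype

/-- the isomorphism onto the special copy -/
noncomputable def fK : ℕ ≃ ℕ := by
  classical
  exact (Nat.Subtype.orderIsoOfNat (Set.range key)).toEquiv.trans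
    (Equiv.ofInjective key key_injective).symm

theorem key_fK : ∃ o : ℕ ≃o (Set.range key), ∀ x, key (fK x) = o x := by
  classical
  refine ⟨Nat.Subtype.orderIsoOfNat (Set.range key), fun x => ?_⟩
  have := Equiv.apply_ofInjective_symm key_injective
    (Nat.Subtype.orderIsoOfNat (Set.range key) x)
  exact this

theorem key_fK_lt (x y : ℕ) : key (fK x) < key (fK y) ↔ x < y := by
  obtain ⟨o, ho⟩ := key_fK
  rw [ho, ho, Subtype.coe_lt_coe, o.lt_iff_lt]

/-- the order of the special copy -/
def lK (a b : ℕ) : Bool := leb (key a + 1) (key b)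

theorem copyK : Copy lK fK := by
  refine ⟨?_, fun a b => ?_⟩
  · unfold lK
    exact cleb (cadd (ckey.comp Computable.fst) (Computable.const 1)) (ckey.comp Computable.snd)
  · unfold lK
    rw [leb_iff, Nat.add_one_le_iff, ← key_fK_lt (fK.symm a) (fK.symm b),
      Equiv.apply_symm_apply, Equiv.apply_symm_apply]

theorem key_fK_ge (j : ℕ) : j ≤ key (fK j) := by
  induction j with
  | zero => exact Nat.zero_le _
  | succ j ih =>
    have := (key_fK_lt j (j + 1)).2 (Nat.lt_succ_self j)
    omega

/-- the universal set is computable from the special isomorphism -/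
theorem K_of_fK {O : Set (ℕ →. ℕ)} (hf : RT O (fun j => fK j)) :
    Nat.RecursiveIn O (chi kb) := by
  have h1 : RT O (fun j => fK (j + 1)) := hf.comp (RT.of_comp (by fun_prop))
  have hinfo : RT O (fun m => Nat.pair (fK m) (fK (m + 1))) := hf.pair h1
  have hkey1 : Computable (fun p : ℕ × ℕ => key p.1.unpair.1) := ckey.comp (by fun_prop)
  have hkey2 : Computable (fun p : ℕ × ℕ => key p.1.unpair.2) := ckey.comp (by fun_prop)
  refine rec_search (info := fun m => Nat.pair (fK m) (fK (m + 1))) hinfo
    (h := fun y => bif kb y then 1 else 0)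
    (T := fun c y => bif eqb (key c.unpair.1) (2 * y) then some 1 else
      bif leb (key c.unpair.1) (2 * y) && leb (2 * y + 1) (key c.unpair.2) then some 0 else
      bif leb (2 * y + 1) (key (fK 0)) then some 0 else none) ?_ ?_ ?_
  · refine ccond (ceqb hkey1 (by fun_prop)) (by fun_prop) (ccond (cand (cleb hkey1 (by fun_prop))
      (cleb (by fun_prop) hkey2)) (by fun_prop) ?_)
    exact ccond (by fun_prop) (by fun_prop) (Computable.const none)
  · intro m y v hv
    simp only [Nat.unpair_pair] at hv
    cases ht1 : eqb (key (fK m)) (2 * y) with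
    | true =>
      rw [ht1] at hv
      rw [eqb_iff] at ht1
      simp only [cond_true, Option.some_inj] at hv
      have : kb y = true := kb_iff.2 ((key_even y).1 ⟨_, ht1⟩)
      rw [this, ← hv]
      rfl
    | false =>
      rw [ht1] at hv
      rw [eqb_false_iff] at ht1
      simp only [cond_false] at hv
      cases ht2 : (leb (key (fK m)) (2 * y) && leb (2 * y + 1) (key (fK (m + 1)))) with
      | true =>
        rw [ht2] at hv
        simp only [Bool.and_eq_true, leb_iff] at ht2
        simp only [cond_true, Option.some_inj] at hv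
        have : kb y = false := by
          rw [kb_false_iff, ← key_even]
          rintro ⟨n, hn⟩
          obtain ⟨j, rfl⟩ := fK.surjective n
          have h3 : m < j := (key_fK_lt m j).1 (by omega)
          have h4 : j < m + 1 := (key_fK_lt j (m + 1)).1 (by omega)
          omega
        rw [this, ← hv]
        rfl
      | false =>
        rw [ht2] at hv
        simp only [cond_false] at hv
        cases ht3 : leb (2 * y + 1) (key (fK 0)) with
        | false => rw [ht3] at hv; simp at hv
        | true =>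
          rw [ht3] at hv
          rw [leb_iff] at ht3
          simp only [cond_true, Option.some_inj] at hv
          have : kb y = false := by
            rw [kb_false_iff, ← key_even]
            rintro ⟨n, hn⟩
            obtain ⟨j, rfl⟩ := fK.surjective n
            have h4 : j < 0 := (key_fK_lt j 0).1 (by omega)
            omega
          rw [this, ← hv]
          rfl
  · intro y
    classical
    have hex : ∃ j, 2 * y < key (fK j) := ⟨2 * y + 1, by have := key_fK_ge (2 * y + 1); omega⟩
    have h2 := Nat.find_spec hex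
    by_cases h0 : Nat.find hex = 0
    · refine ⟨0, ?_⟩
      rw [h0] at h2
      simp only [Nat.unpair_pair]
      rw [leb_iff.2 (by omega : 2 * y + 1 ≤ key (fK 0))]
      cases eqb (key (fK 0)) (2 * y) <;>
        cases (leb (key (fK 0)) (2 * y) && leb (2 * y + 1) (key (fK (0 + 1)))) <;> rfl
    · obtain ⟨m, hm⟩ := Nat.exists_eq_succ_of_ne_zero h0
      have h3 := Nat.find_min hex (m := m) (by omega)
      rw [hm] at h2
      refine ⟨m, ?_⟩
      simp only [Nat.unpair_pair]
      cases ht : eqb (key (fK m)) (2 * y) with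
      | true => rfl
      | false =>
        simp only [Nat.succ_eq_add_one] at h2
        rw [leb_iff.2 (by omega : key (fK m) ≤ 2 * y),
          leb_iff.2 (by omega : 2 * y + 1 ≤ key (fK (m + 1)))]
        rfl

theorem copy_refl : Copy (fun a b => leb (a + 1) b) (Equiv.refl ℕ) := by
  refine ⟨by fun_prop, fun a b => ?_⟩
  rw [leb_iff]
  rfl

/-- the two copies have images of different degree -/
theorem not_le_refl : ¬ Nat.RecursiveIn {chi (Af (Equiv.refl ℕ))} (chi (Af fK)) := by
  intro h
  apply K_not_le_D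
  have h1 : Nat.RecursiveIn {chi (Af (Equiv.refl ℕ))} (chi kb) :=
    K_of_fK (f_of_Af copyK h)
  refine h1.subst fun g hg => ?_
  rw [Set.mem_singleton_iff] at hg
  subst hg
  refine Af_of_rank ?_ (Nat.RecursiveIn.oracle _ rfl)
  exact RT.of_comp (h := fun b => b) (by fun_prop)

end Pool.Agent.Helper17.DS
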